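import Pool.Agent.H182R3.MO.Stmts

set_option autoImplicit false

open MeasureTheory Set Filter Topology
open scoped ContDiff Real

namespace Pool.Agent.H725R3.MOF

open Pool.Agent.H182R3.MO

lemma UU_lt {a r : ℝ} (ha : 0 < a) (ha1 : a < 1) (hr : 0 ≤ r) (hr1 : r < 1) (t : ℝ) : UU a r t < 1 := by
  unfold UU
  have h1 : 0 ≤ r * (a * (1 - r)) := mul_nonneg hr (mul_nonneg ha.le (by linarith))
  have h2 := Real.cos_le_one t
  have h3 : r ^ 2 + (a * (1 - r)) ^ 2 + 2 * (r * (a * (1 - r))) * Real.cos t ≤ (r + a * (1 - r)) ^ 2 := by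
    nlinarith
  have h4 : r + a * (1 - r) < 1 := by nlinarith
  have h5 : 0 ≤ r + a * (1 - r) := add_nonneg hr (mul_nonneg ha.le (by linarith))
  nlinarith

lemma UU_even (a r t : ℝ) : UU a r (-t) = UU a r t := by
  unfold UU
  rw [Real.cos_neg]

lemma UU_per (a r t : ℝ) : UU a r (t + 2 * π) = UU a r t := by
  unfold UU
  rw [Real.cos_add_two_pi]

lemma norm_circle (a : ℝ) (z : ℂ) (θ : ℝ) :
    ‖circleMap z (a * (1 - ‖z‖)) θ‖ ^ 2 = UU a ‖z‖ (θ - Complex.arg z) := by
  have hz := Complex.norm_mul_exp_arg_mul_I z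
  set r := ‖z‖ with hr
  set φ := Complex.arg z with hφ
  have e1 : circleMap z (a * (1 - r)) θ = Complex.exp (φ * Complex.I) *
      (((r : ℝ) : ℂ) + ((a * (1 - r) : ℝ) : ℂ) * Complex.exp (((θ - φ : ℝ) : ℂ) * Complex.I)) := by
    rw [circleMap, mul_add, ← mul_comm ((r : ℝ) : ℂ), hz]
    congr 1
    rw [mul_left_comm, ← Complex.exp_add]
    congr 2
    push_cast
    ring
  rw [e1, norm_mul, Complex.norm_exp_ofReal_mul_I, one_mul, ← Complex.normSq_eq_norm_sq,
    Complex.normSq_apply]
  unfold UU
  simp only [Complex.add_re, Complex.add_im, Complex.ofReal_re, Complex.ofReal_im,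
    Complex.re_ofReal_mul, Complex.im_ofReal_mul, Complex.exp_ofReal_mul_I_re, Complex.exp_ofReal_mul_I_im]
  have := Real.sin_sq_add_cos_sq (θ - φ)
  linear_combination ((a * (1 - r)) ^ 2) * this

theorem t : TaskF := by
  intro a ha ha1 h hh hE hc hu
  obtain ⟨c, hc0, hc⟩ := hc
  obtain ⟨u, hu0, hu1, hu⟩ := hu
  refine ⟨?_, ?_, ?_⟩
  · have h1 : ContDiffOn ℝ ∞ (fun z : ℂ => h (‖z‖ ^ 2)) (Metric.ball 0 1) := by
      refine hh.comp (contDiff_norm_sq ℝ).contDiffOn ?_
      intro z hz
      rw [mem_ball_zero_iff] at hz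
      have := norm_nonneg z
      simp only [mem_Iio]
      nlinarith
    exact Complex.ofRealCLM.contDiff.comp_contDiffOn h1
  · intro z hz
    set r := ‖z‖ with hr
    set φ := Complex.arg z with hφ
    set R := a * (1 - r) with hR
    have hr0 : 0 ≤ r := norm_nonneg z
    have hcont : Continuous fun t : ℝ => h (UU a r t) := by
      have h1 := hh.continuousOn
      refine h1.comp_continuous (by unfold UU; fun_prop) fun t => UU_lt ha ha1 hr0 hz t
    set F : ℝ → ℂ := fun t => Complex.exp ((t : ℂ) * Complex.I) * ((h (UU a r t) : ℝ) : ℂ) with hF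
    have hFc : Continuous F := by
      refine Continuous.mul (by fun_prop) (Complex.continuous_ofReal.comp hcont)
    have hFper : Function.Periodic F (2 * π) := by
      intro t
      simp only [hF]
      rw [UU_per]
      congr 1
      push_cast
      rw [add_mul, Complex.exp_periodic]
    have e1 : circleIntegral (fun z : ℂ => ((h (‖z‖ ^ 2) : ℝ) : ℂ)) z R =
        ((R : ℂ) * Complex.I * Complex.exp (φ * Complex.I)) * ∫ θ in (0 : ℝ)..(2 * π), F (θ - φ) := by
      rw [circleIntegral, ← intervalIntegral.integral_const_mul]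
      refine intervalIntegral.integral_congr fun θ _ => ?_
      simp only [deriv_circleMap, smul_eq_mul, circleMap_zero, hF]
      rw [norm_circle a z θ]
      have e2 : Complex.exp ((θ : ℂ) * Complex.I) = Complex.exp (φ * Complex.I) *
          Complex.exp (((θ - φ : ℝ) : ℂ) * Complex.I) := by
        rw [← Complex.exp_add]
        congr 1
        push_cast
        ring
      rw [e2]
      ring
    have e3 : ∫ θ in (0 : ℝ)..(2 * π), F (θ - φ) = ∫ t in (-π)..π, F t := by
      rw [intervalIntegral.integral_comp_sub_right (fun t => F t) φ]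
      have h1 := hFper.intervalIntegral_add_eq (0 - φ) (-π)
      rw [show (0 - φ + 2 * π) = 2 * π - φ by ring, show (-π + 2 * π) = π by ring] at h1
      exact h1
    have e4 : ∫ t in (-π)..π, F t = 2 * ((EE a h r : ℝ) : ℂ) := by
      rw [← intervalIntegral.integral_add_adjacent_intervals (b := 0)
        (hFc.intervalIntegrable _ _) (hFc.intervalIntegrable _ _)]
      have h1 : ∫ t in (-π)..0, F t = ∫ t in (0 : ℝ)..π, F (-t) := by
        rw [intervalIntegral.integral_comp_neg]
        simp
      have hFn : Continuous fun t => F (-t) := hFc.comp continuous_neg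
      rw [h1, ← intervalIntegral.integral_add (hFn.intervalIntegrable _ _)
        (hFc.intervalIntegrable _ _)]
      unfold EE
      rw [← intervalIntegral.integral_ofReal, ← intervalIntegral.integral_const_mul]
      refine intervalIntegral.integral_congr fun t _ => ?_
      simp only [hF, UU_even]
      push_cast
      rw [Complex.cos]
      rw [neg_mul]
      ring
    rw [e1, e3, e4, hE r hr0 hz]
    simp
  · intro han
    have han' : AnalyticOnNhd ℂ (fun z : ℂ => ((h (‖z‖ ^ 2) : ℝ) : ℂ)) (Metric.ball 0 1) :=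
      (Metric.isOpen_ball.analyticOn_iff_analyticOnNhd).mp han
    have h0 : (fun z : ℂ => ((h (‖z‖ ^ 2) : ℝ) : ℂ)) =ᶠ[𝓝 0] 0 := by
      have h1 : ∀ᶠ z : ℂ in 𝓝 0, ‖z‖ ^ 2 < c := by
        have : Tendsto (fun z : ℂ => ‖z‖ ^ 2) (𝓝 0) (𝓝 0) := by
          have hcc : Continuous (fun z : ℂ => ‖z‖ ^ 2) := by fun_prop
          have := hcc.tendsto (0 : ℂ)
          simpa using this
        exact this.eventually (gt_mem_nhds hc0)
      filter_upwards [h1] with z hz
      simp [hc _ hz.le]
    have h2 := han'.eqOn_zero_of_preconnected_of_eventuallyEq_zero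
      (convex_ball (0 : ℂ) 1).isPreconnected (Metric.mem_ball_self one_pos) h0
    have h3 : ((Real.sqrt u : ℝ) : ℂ) ∈ Metric.ball (0 : ℂ) 1 := by
      rw [mem_ball_zero_iff, Complex.norm_real, Real.norm_eq_abs, abs_of_nonneg (Real.sqrt_nonneg u)]
      rw [Real.sqrt_lt' one_pos]
      simpa using hu1
    have h4 := h2 h3
    simp only [Complex.norm_real, Real.norm_eq_abs, sq_abs, Pi.zero_apply] at h4
    rw [Real.sq_sqrt hu0.le] at h4
    exact hu (by exact_mod_cast h4)

end Pool.Agent.H725R3.MOF
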