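import Mathlib
import Pool.Agent.H54R3.Spec508

set_option autoImplicit false

open MeasureTheory Filter Topology
open scoped InnerProductSpace ENNReal ComplexConjugate

namespace Pool.Agent.H725R3.SC7

/-- transfer matrices -/
noncomputable def pT (b : ℕ → ℝ) (E : ℝ) (n : ℕ) : Matrix (Fin 2) (Fin 2) ℝ :=
  ((List.range n).reverse.map (fun m => ((1 : ℝ))⁻¹ • !![E - b m, -1; (1 : ℝ) ^ 2, 0])).prod

lemma pT_succ (b : ℕ → ℝ) (E : ℝ) (n : ℕ) :
    pT b E (n + 1) = !![E - b n, -1; 1, 0] * pT b E n := by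
  unfold pT
  rw [List.range_succ, List.reverse_append]
  simp

lemma p_succ (b : ℕ → ℝ) (E : ℝ) (n : ℕ) :
    pT b E (n + 1) 0 0 = (E - b n) * pT b E n 0 0 - pT b E n 1 0 := by
  rw [pT_succ, Matrix.mul_apply, Fin.sum_univ_two]
  simp
  ring

lemma q_succ (b : ℕ → ℝ) (E : ℝ) (n : ℕ) : pT b E (n + 1) 1 0 = pT b E n 0 0 := by
  rw [pT_succ, Matrix.mul_apply, Fin.sum_univ_two]
  simp

lemma p_cont (b : ℕ → ℝ) (n : ℕ) :
    Continuous (fun E => pT b E n 0 0) ∧ Continuous (fun E => pT b E n 1 0) := by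
  induction n with
  | zero =>
    constructor
    · simp only [pT, List.range_zero, List.reverse_nil, List.map_nil, List.prod_nil,
        Matrix.one_apply_eq]
      exact continuous_const
    · have : (fun E => pT b E 0 1 0) = fun _ => (0 : ℝ) := by
        ext E; simp [pT]
      rw [this]
      exact continuous_const
  | succ n ih =>
    constructor
    · have : (fun E => pT b E (n + 1) 0 0) =
          fun E => (E - b n) * pT b E n 0 0 - pT b E n 1 0 := by
        ext E; exact p_succ b E n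
      rw [this]
      exact ((continuous_id.sub continuous_const).mul ih.1).sub ih.2
    · have : (fun E => pT b E (n + 1) 1 0) = fun E => pT b E n 0 0 := by
        ext E; exact q_succ b E n
      rw [this]
      exact ih.1

/-- square summable sequences on the half line -/
abbrev L2 : Type := lp (fun _ : ℕ => ℂ) 2

lemma two_pos : 0 < (2 : ℝ≥0∞).toReal := by norm_num

lemma summ (ψ : L2) : Summable fun m => ‖ψ m‖ ^ (2 : ℝ≥0∞).toReal :=
  (lp.memℓp ψ).summable two_pos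

lemma mem_shift (ψ : L2) : Memℓp (fun m => ψ (m + 1)) 2 := by
  apply memℓp_gen
  exact (summable_nat_add_iff (f := fun m => ‖ψ m‖ ^ (2 : ℝ≥0∞).toReal) 1).mpr (summ ψ)

/-- left shift -/
noncomputable def LL : L2 →L[ℂ] L2 :=
  LinearMap.mkContinuous
    { toFun := fun ψ => ⟨fun m => ψ (m + 1), mem_shift ψ⟩
      map_add' := fun ψ χ => by ext m; rfl
      map_smul' := fun c ψ => by ext m; rfl } 1 (by
      intro ψ
      rw [one_mul]
      apply lp.norm_le_of_forall_sum_le two_pos (norm_nonneg _)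
      intro s
      have h1 := lp.sum_rpow_le_norm_rpow two_pos ψ (s.map ⟨fun m => m + 1, add_left_injective 1⟩)
      rw [Finset.sum_map] at h1
      exact h1)

lemma LL_apply (ψ : L2) (m : ℕ) : LL ψ m = ψ (m + 1) := rfl

lemma mem_mul (v : ℕ → ℝ) {C : ℝ} (hv : ∀ m, |v m| ≤ C) (ψ : L2) :
    Memℓp (fun m => (v m : ℂ) * ψ m) 2 := by
  have hC : 0 ≤ C := (abs_nonneg _).trans (hv 0)
  apply memℓp_gen
  refine Summable.of_nonneg_of_le (fun m => by positivity) (fun m => ?_)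
    ((summ ψ).mul_left (C ^ (2 : ℝ≥0∞).toReal))
  rw [norm_mul, Complex.norm_real, Real.norm_eq_abs, Real.mul_rpow (abs_nonneg _) (norm_nonneg _)]
  apply mul_le_mul_of_nonneg_right _ (by positivity)
  exact Real.rpow_le_rpow (abs_nonneg _) (hv m) two_pos.le

/-- multiplication -/
noncomputable def MM (v : ℕ → ℝ) {C : ℝ} (hv : ∀ m, |v m| ≤ C) : L2 →L[ℂ] L2 :=
  LinearMap.mkContinuous
    { toFun := fun ψ => ⟨fun m => (v m : ℂ) * ψ m, mem_mul v hv ψ⟩
      map_add' := fun ψ χ => by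
        ext m
        change (v m : ℂ) * (ψ + χ) m = (v m : ℂ) * ψ m + (v m : ℂ) * χ m
        rw [lp.coeFn_add, Pi.add_apply]; ring
      map_smul' := fun c ψ => by
        ext m
        change (v m : ℂ) * (c • ψ) m = c * ((v m : ℂ) * ψ m)
        rw [lp.coeFn_smul, Pi.smul_apply, smul_eq_mul]; ring } C (by
      intro ψ
      have hC : 0 ≤ C := (abs_nonneg _).trans (hv 0)
      apply lp.norm_le_of_forall_sum_le two_pos (by positivity)
      intro s
      rw [Real.mul_rpow hC (norm_nonneg _)]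
      calc ∑ m ∈ s, ‖(v m : ℂ) * ψ m‖ ^ (2 : ℝ≥0∞).toReal
          ≤ ∑ m ∈ s, C ^ (2 : ℝ≥0∞).toReal * ‖ψ m‖ ^ (2 : ℝ≥0∞).toReal := by
            apply Finset.sum_le_sum
            intro m _
            rw [norm_mul, Complex.norm_real, Real.norm_eq_abs,
              Real.mul_rpow (abs_nonneg _) (norm_nonneg _)]
            apply mul_le_mul_of_nonneg_right _ (by positivity)
            exact Real.rpow_le_rpow (abs_nonneg _) (hv m) two_pos.le
        _ = C ^ (2 : ℝ≥0∞).toReal * ∑ m ∈ s, ‖ψ m‖ ^ (2 : ℝ≥0∞).toReal := by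
            rw [Finset.mul_sum]
        _ ≤ C ^ (2 : ℝ≥0∞).toReal * ‖ψ‖ ^ (2 : ℝ≥0∞).toReal := by
            apply mul_le_mul_of_nonneg_left _ (by positivity)
            exact lp.sum_rpow_le_norm_rpow two_pos ψ s)

lemma MM_apply (v : ℕ → ℝ) {C : ℝ} (hv : ∀ m, |v m| ≤ C) (ψ : L2) (m : ℕ) :
    MM v hv ψ m = (v m : ℂ) * ψ m := rfl

lemma inner_eq (ψ χ : L2) : inner ℂ ψ χ = ∑' m, conj (ψ m) * χ m := by
  rw [lp.inner_eq_tsum]
  congr 1
  ext m
  rw [RCLike.inner_apply, mul_comm]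

lemma MM_adj (v : ℕ → ℝ) {C : ℝ} (hv : ∀ m, |v m| ≤ C) (ψ χ : L2) :
    inner ℂ (MM v hv ψ) χ = inner ℂ ψ (MM v hv χ) := by
  rw [inner_eq, inner_eq]
  congr 1
  ext m
  rw [MM_apply, MM_apply, map_mul, Complex.conj_ofReal]
  ring

/-- basis vectors -/
noncomputable def ee (n : ℕ) : L2 := lp.single 2 n (1 : ℂ)

lemma ee_apply (n m : ℕ) : ee n m = if m = n then 1 else 0 := by
  unfold ee
  rw [lp.coeFn_single, Pi.single_apply]

lemma inner_ee (n : ℕ) (χ : L2) : inner ℂ (ee n) χ = χ n := by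
  rw [inner_eq, tsum_eq_single n]
  · rw [ee_apply, if_pos rfl]; simp
  · intro m hm
    rw [ee_apply, if_neg hm]; simp

lemma norm_ee (n : ℕ) : ‖ee n‖ ^ 2 = 1 := by
  have h := inner_self_eq_norm_sq_to_K (𝕜 := ℂ) (ee n)
  rw [inner_ee, ee_apply, if_pos rfl] at h
  have h2 : ((1 : ℝ) : ℂ) = ((‖ee n‖ ^ 2 : ℝ) : ℂ) := by
    rw [Complex.ofReal_pow, Complex.ofReal_one]
    exact h
  exact (Complex.ofReal_injective h2).symm

lemma adj_ee (n : ℕ) : (ContinuousLinearMap.adjoint LL) (ee n) = ee (n + 1) := by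
  apply ext_inner_right ℂ
  intro χ
  rw [ContinuousLinearMap.adjoint_inner_left, inner_ee, inner_ee, LL_apply]

lemma LL_ee_zero : LL (ee 0) = 0 := by
  ext m
  rw [LL_apply, ee_apply, if_neg (Nat.succ_ne_zero m)]
  rfl

lemma LL_ee_succ (n : ℕ) : LL (ee (n + 1)) = ee n := by
  ext m
  rw [LL_apply, ee_apply, ee_apply]
  simp

lemma MM_ee (v : ℕ → ℝ) {C : ℝ} (hv : ∀ m, |v m| ≤ C) (n : ℕ) :
    MM v hv (ee n) = (v n : ℂ) • ee n := by
  ext m
  rw [MM_apply, lp.coeFn_smul, Pi.smul_apply, smul_eq_mul, ee_apply]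
  by_cases h : m = n
  · subst h; rfl
  · rw [if_neg h]; simp

/-- the half line operator -/
noncomputable def HH (v : ℕ → ℝ) {C : ℝ} (hv : ∀ m, |v m| ≤ C) : L2 →L[ℂ] L2 :=
  LL + ContinuousLinearMap.adjoint LL + MM v hv

lemma HH_sa (v : ℕ → ℝ) {C : ℝ} (hv : ∀ m, |v m| ≤ C) : IsSelfAdjoint (HH v hv) := by
  unfold HH
  apply IsSelfAdjoint.add
  · exact IsSelfAdjoint.add_star_self LL
  · rw [ContinuousLinearMap.isSelfAdjoint_iff_isSymmetric]
    intro ψ χ
    exact MM_adj v hv ψ χ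

lemma HH_ee_zero (v : ℕ → ℝ) {C : ℝ} (hv : ∀ m, |v m| ≤ C) :
    HH v hv (ee 0) = ee 1 + (v 0 : ℂ) • ee 0 := by
  unfold HH
  rw [add_apply, add_apply, LL_ee_zero, adj_ee, MM_ee, zero_add]

lemma HH_ee_succ (v : ℕ → ℝ) {C : ℝ} (hv : ∀ m, |v m| ≤ C) (n : ℕ) :
    HH v hv (ee (n + 1)) = ee n + ee (n + 2) + (v (n + 1) : ℂ) • ee (n + 1) := by
  unfold HH
  rw [add_apply, add_apply, LL_ee_succ, adj_ee, MM_ee]

section gen

variable {X : Type} [NormedAddCommGroup X] [InnerProductSpace ℂ X] [CompleteSpace X]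

lemma lin {H : X →L[ℂ] X} (hH : IsSelfAdjoint H) (e : X) (f : ℝ → ℝ) (hf : Continuous f)
    (c : ℝ) : cfc (fun x => (x - c) * f x) H e = H (cfc f H e) - (c : ℂ) • cfc f H e := by
  rw [cfc_mul (fun x : ℝ => x - c) f H (by fun_prop) hf.continuousOn,
    cfc_sub (fun x : ℝ => x) (fun _ => c) H (by fun_prop) (by fun_prop), cfc_id' ℝ H,
    cfc_const c H]
  change (H - algebraMap ℝ (X →L[ℂ] X) c) (cfc f H e) = _
  rw [sub_apply, Algebra.algebraMap_eq_smul_one, smul_apply, one_apply_eq_self,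
    RCLike.real_smul_eq_coe_smul (K := ℂ)]
  rfl

lemma vec (b : ℕ → ℝ) {H : X →L[ℂ] X} (hsa : IsSelfAdjoint H) (e : ℕ → X)
    (hz : H (e 0) = e 1 + (b 0 : ℂ) • e 0)
    (hs : ∀ n, H (e (n + 1)) = e n + e (n + 2) + (b (n + 1) : ℂ) • e (n + 1)) (n : ℕ) :
    cfc (fun E => pT b E n 0 0) H (e 0) = e n ∧
    cfc (fun E => pT b E (n + 1) 0 0) H (e 0) = e (n + 1) := by
  induction n with
  | zero =>
    have h0 : cfc (fun E => pT b E 0 0 0) H (e 0) = e 0 := by
      have : (fun E => pT b E 0 0 0) = fun _ => (1 : ℝ) := by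
        ext E; simp [pT]
      rw [this, cfc_const_one ℝ H, one_apply_eq_self]
    refine ⟨h0, ?_⟩
    have : (fun E => pT b E (0 + 1) 0 0) = fun E => (E - b 0) * pT b E 0 0 0 := by
      ext E
      rw [p_succ]
      simp [pT]
    rw [this, lin hsa _ _ (p_cont b 0).1, h0, hz]
    abel
  | succ n ih =>
    refine ⟨ih.2, ?_⟩
    have : (fun E => pT b E (n + 1 + 1) 0 0) =
        fun E => (E - b (n + 1)) * pT b E (n + 1) 0 0 - pT b E n 0 0 := by
      ext E
      rw [p_succ, q_succ]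
    rw [this, cfc_sub (fun E => (E - b (n + 1)) * pT b E (n + 1) 0 0) (fun E => pT b E n 0 0)
      H ((continuous_id.sub continuous_const).mul (p_cont b (n + 1)).1).continuousOn
      (p_cont b n).1.continuousOn, sub_apply, lin hsa _ _ (p_cont b (n + 1)).1, ih.1, ih.2,
      hs]
    abel

lemma int_pg (b : ℕ → ℝ) {H : X →L[ℂ] X} (hsa : IsSelfAdjoint H) (e : ℕ → X)
    (hz : H (e 0) = e 1 + (b 0 : ℂ) • e 0)
    (hs : ∀ n, H (e (n + 1)) = e n + e (n + 2) + (b (n + 1) : ℂ) • e (n + 1))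
    (hn : ∀ n, ‖e n‖ ^ 2 = 1) (n : ℕ) :
    ∫⁻ E, ENNReal.ofReal (pT b E n 0 0 ^ 2) ∂(Pool.Agent.H54R3.Spec508.mu H (e 0)) = 1 := by
  have h1 := Pool.Agent.H54R3.Spec508.norm_cfc hsa (e 0) _ (p_cont b n).1
  have hc : Continuous (fun E => pT b E n 0 0 * pT b E n 0 0) := (p_cont b n).1.mul (p_cont b n).1
  have h2 := (Pool.Agent.H54R3.Spec508.key H (e 0) _ hc).1
  rw [(vec b hsa e hz hs n).1, hn] at h1
  have h3 : ∀ E, ENNReal.ofReal (pT b E n 0 0 ^ 2) = ENNReal.ofReal (pT b E n 0 0 * pT b E n 0 0) :=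
    fun E => by rw [sq]
  simp_rw [h3]
  rw [← ofReal_integral_eq_lintegral_ofReal h2 (Eventually.of_forall fun E => mul_self_nonneg _)]
  rw [← h1]
  simp

lemma momg {H : X →L[ℂ] X} (hsa : IsSelfAdjoint H) (e : X) (k : ℕ) :
    Integrable (fun x : ℝ => x ^ k) (Pool.Agent.H54R3.Spec508.mu H e) ∧
    ((∫ x, x ^ k ∂(Pool.Agent.H54R3.Spec508.mu H e) : ℝ) : ℂ) = inner ℂ e ((H ^ k) e) := by
  refine ⟨(Pool.Agent.H54R3.Spec508.key2 H e (fun x => x ^ k) (continuous_pow k)).1, ?_⟩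
  rw [(Pool.Agent.H54R3.Spec508.key2 H e (fun x => x ^ k) (continuous_pow k)).2,
    cfc_pow_id (R := ℝ) H k]

end gen

/-- the spectral measure -/
noncomputable def mu (b : ℕ → ℝ) {C : ℝ} (hb : ∀ m, |b m| ≤ C) : Measure ℝ :=
  Pool.Agent.H54R3.Spec508.mu (HH b hb) (ee 0)

lemma int_p (b : ℕ → ℝ) {C : ℝ} (hb : ∀ m, |b m| ≤ C) (n : ℕ) :
    ∫⁻ E, ENNReal.ofReal (pT b E n 0 0 ^ 2) ∂(mu b hb) = 1 :=
  int_pg b (HH_sa b hb) ee (HH_ee_zero b hb) (HH_ee_succ b hb) norm_ee n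

lemma int_q (b : ℕ → ℝ) {C : ℝ} (hb : ∀ m, |b m| ≤ C) (n : ℕ) :
    ∫⁻ E, ENNReal.ofReal (pT b E n 1 0 ^ 2) ∂(mu b hb) ≤ 1 := by
  cases n with
  | zero => simp [pT]
  | succ n =>
    simp_rw [q_succ]
    rw [int_p]

lemma int_F (b : ℕ → ℝ) {C : ℝ} (hb : ∀ m, |b m| ≤ C) (n : ℕ) :
    ∫⁻ E, ENNReal.ofReal (pT b E n 0 0 ^ 2 + pT b E n 1 0 ^ 2) ∂(mu b hb) ≤ 2 := by
  have h3 : ∀ E, ENNReal.ofReal (pT b E n 0 0 ^ 2 + pT b E n 1 0 ^ 2) =
      ENNReal.ofReal (pT b E n 0 0 ^ 2) + ENNReal.ofReal (pT b E n 1 0 ^ 2) :=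
    fun E => ENNReal.ofReal_add (sq_nonneg _) (sq_nonneg _)
  simp_rw [h3]
  rw [lintegral_add_left (by
    have := (p_cont b n).1
    exact (this.pow 2).measurable.ennreal_ofReal), int_p]
  calc (1 : ℝ≥0∞) + _ ≤ 1 + 1 := by gcongr; exact int_q b hb n
    _ = 2 := by norm_num

theorem rn_zero (b : ℕ → ℝ) {C : ℝ} (hb : ∀ m, |b m| ≤ C) (S : Set ℝ)
    (nj : ℕ → ℕ)
    (hinf : ∀ᵐ E ∂(volume.restrict S),
      Tendsto (fun j => (pT b E (nj j)) 0 0 ^ 2 + (pT b E (nj j)) 1 0 ^ 2) atTop atTop) :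
    ∀ᵐ E ∂(volume.restrict S), (mu b hb).rnDeriv volume E = 0 := by
  set ρ := (mu b hb).rnDeriv volume with hρ
  set F : ℕ → ℝ → ℝ≥0∞ := fun j E =>
    ENNReal.ofReal (pT b E (nj j) 0 0 ^ 2 + pT b E (nj j) 1 0 ^ 2) with hF
  have hρm : Measurable ρ := Measure.measurable_rnDeriv _ _
  have hFm : ∀ j, Measurable (F j) := by
    intro j
    have h1 := p_cont b (nj j)
    exact ((h1.1.pow 2).add (h1.2.pow 2)).measurable.ennreal_ofReal
  have hle : ∀ j, ∫⁻ E in S, ρ E * F j E ≤ 2 := by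
    intro j
    calc ∫⁻ E in S, ρ E * F j E ≤ ∫⁻ E, ρ E * F j E := setLIntegral_le_lintegral _ _
      _ = ∫⁻ E, F j E ∂(volume.withDensity ρ) := by
        rw [lintegral_withDensity_eq_lintegral_mul _ hρm (hFm j)]
        rfl
      _ ≤ ∫⁻ E, F j E ∂(mu b hb) := lintegral_mono' (Measure.withDensity_rnDeriv_le _ _) le_rfl
      _ ≤ 2 := int_F b hb (nj j)
  have hfatou : ∫⁻ E in S, liminf (fun j => ρ E * F j E) atTop ≤ 2 := by
    refine (lintegral_liminf_le (fun j => hρm.mul (hFm j))).trans ?_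
    refine liminf_le_of_frequently_le' ?_
    exact Frequently.of_forall hle
  have hfin : ∀ᵐ E ∂(volume.restrict S), liminf (fun j => ρ E * F j E) atTop < ∞ := by
    refine ae_lt_top ?_ (ne_top_of_le_ne_top (by norm_num) hfatou)
    exact Measurable.liminf (fun j => hρm.mul (hFm j))
  filter_upwards [hinf, hfin] with E h1 h2
  by_contra h3
  have h4 : Tendsto (fun j => F j E) atTop (𝓝 ∞) := ENNReal.tendsto_ofReal_atTop.comp h1
  have h5 : Tendsto (fun j => ρ E * F j E) atTop (𝓝 (ρ E * ∞)) :=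
    ENNReal.Tendsto.const_mul h4 (Or.inl ENNReal.top_ne_zero)
  rw [h5.liminf_eq, ENNReal.mul_top h3] at h2
  exact lt_irrefl _ h2

lemma coord (b : ℕ → ℝ) {C : ℝ} (hb : ∀ m, |b m| ≤ C) (x : L2) (i : ℕ) :
    (HH b hb x) i = x (i + 1) + (if i = 0 then 0 else x (i - 1)) + (b i : ℂ) * x i := by
  have hsym := (ContinuousLinearMap.isSelfAdjoint_iff_isSymmetric.mp (HH_sa b hb))
  have h1 : (HH b hb x) i = inner ℂ (HH b hb (ee i)) x := by
    rw [← inner_ee i (HH b hb x)]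
    exact (hsym (ee i) x).symm
  rw [h1]
  cases i with
  | zero =>
    rw [HH_ee_zero, inner_add_left, inner_smul_left, inner_ee, inner_ee, Complex.conj_ofReal]
    simp
  | succ i =>
    rw [HH_ee_succ, inner_add_left, inner_add_left, inner_smul_left, inner_ee, inner_ee, inner_ee,
      Complex.conj_ofReal]
    simp
    ring

lemma above (b : ℕ → ℝ) {C : ℝ} (hb : ∀ m, |b m| ≤ C) (j : ℕ) :
    ∀ i, j < i → (((HH b hb) ^ j) (ee 0)) i = 0 := by
  induction j with
  | zero =>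
    intro i hi
    rw [pow_zero, one_apply_eq_self, ee_apply, if_neg (by omega)]
  | succ j ih =>
    intro i hi
    rw [pow_succ', mul_apply_eq_comp, coord, ih (i + 1) (by omega), ih i (by omega),
      if_neg (by omega), ih (i - 1) (by omega)]
    simp

/-- truncated matrix -/
def TT (b : ℕ → ℝ) (k : ℕ) : Matrix (Fin (k + 1)) (Fin (k + 1)) ℝ :=
  Matrix.of fun i j : Fin (k + 1) => if i.val = j.val then b i.val
    else if j.val = i.val + 1 then (1 : ℝ) else if i.val = j.val + 1 then (1 : ℝ) else (0 : ℝ)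

lemma row_sum (b : ℕ → ℝ) (k : ℕ) (i : ℕ) (hi : i < k + 1) (x : ℕ → ℂ) (hx : x (k + 1) = 0) :
    ∑ l ∈ Finset.range (k + 1), (((if i = l then b i else if l = i + 1 then (1 : ℝ)
      else if i = l + 1 then (1 : ℝ) else (0 : ℝ)) : ℝ) : ℂ) * x l =
    x (i + 1) + (if i = 0 then 0 else x (i - 1)) + (b i : ℂ) * x i := by
  have h1 : ∀ l ∈ Finset.range (k + 1), (((if i = l then b i else if l = i + 1 then (1 : ℝ)
      else if i = l + 1 then (1 : ℝ) else (0 : ℝ)) : ℝ) : ℂ) * x l =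
      (if l = i + 1 then x (i + 1) else 0) + (if l = i - 1 then (if i = 0 then 0 else x (i - 1))
        else 0) + (if l = i then (b i : ℂ) * x i else 0) := by
    intro l _
    rcases Nat.lt_trichotomy l i with h | h | h
    · by_cases h2 : l + 1 = i
      · subst h2
        rw [if_neg (by omega), if_neg (by omega), if_pos rfl, if_neg (by omega),
          if_pos (by omega), if_neg (by omega), if_neg (by omega)]
        simp
      · rw [if_neg (by omega), if_neg (by omega), if_neg (by omega), if_neg (by omega),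
          if_neg (by omega), if_neg (by omega)]
        simp
    · subst h
      rw [if_pos rfl, if_neg (by omega), if_pos rfl]
      by_cases h3 : l = 0
      · subst h3; simp
      · rw [if_neg (by omega)]; simp
    · by_cases h2 : l = i + 1
      · subst h2
        rw [if_neg (by omega), if_pos rfl, if_pos rfl, if_neg (by omega), if_neg (by omega)]
        simp
      · rw [if_neg (by omega), if_neg (by omega), if_neg (by omega), if_neg (by omega),
          if_neg (by omega), if_neg (by omega)]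
        simp
  rw [Finset.sum_congr rfl h1, Finset.sum_add_distrib, Finset.sum_add_distrib,
    Finset.sum_ite_eq', Finset.sum_ite_eq', Finset.sum_ite_eq']
  rw [if_pos (Finset.mem_range.mpr (by omega : i - 1 < k + 1)), if_pos (Finset.mem_range.mpr hi)]
  by_cases h : i + 1 ∈ Finset.range (k + 1)
  · rw [if_pos h]
  · rw [if_neg h]
    have : i = k := by
      rw [Finset.mem_range] at h
      omega
    rw [this, hx]

theorem mom (b : ℕ → ℝ) {C : ℝ} (hb : ∀ m, |b m| ≤ C) (k : ℕ) :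
    ∀ j ≤ k, ∀ i : Fin (k + 1), (((TT b k ^ j) i 0 : ℝ) : ℂ) = (((HH b hb) ^ j) (ee 0)) i.val := by
  intro j
  induction j with
  | zero =>
    intro _ i
    rw [pow_zero, pow_zero, one_apply_eq_self, ee_apply, Matrix.one_apply]
    by_cases h : i = 0
    · subst h; simp
    · rw [if_neg h, if_neg (by
        intro h2
        exact h (Fin.ext h2))]
      simp
  | succ j ih =>
    intro hj i
    rw [pow_succ', pow_succ', mul_apply_eq_comp, coord, Matrix.mul_apply]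
    rw [← row_sum b k i.val i.isLt (fun l => (((HH b hb) ^ j) (ee 0)) l) (above b hb j _ (by omega)),
      Finset.sum_range]
    simp only [Complex.ofReal_sum, Complex.ofReal_mul]
    refine Finset.sum_congr rfl fun l _ => ?_
    rw [ih (by omega) l]
    rfl

theorem spectral_part (b : ℕ → ℝ) (hb : ∃ C : ℝ, ∀ n, |b n| ≤ C) (S : Set ℝ) (hS : MeasurableSet S)
    (nj : ℕ → ℕ)
    (hinf : ∀ᵐ E ∂(volume.restrict S),
      Tendsto (fun j => (pT b E (nj j)) 0 0 ^ 2 + (pT b E (nj j)) 1 0 ^ 2) atTop atTop) :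
    ∃ μ : Measure ℝ, IsFiniteMeasure μ ∧ (∀ k : ℕ, Integrable (fun x : ℝ => x ^ k) μ) ∧
      (∀ k : ℕ, ∫ x, x ^ k ∂μ = ((Matrix.of fun i j : Fin (k + 1) => if i.val = j.val then b i.val
        else if j.val = i.val + 1 then (1 : ℝ) else if i.val = j.val + 1 then (1 : ℝ)
        else (0 : ℝ)) ^ k) 0 0) ∧ (∀ᵐ E ∂(volume.restrict S), μ.rnDeriv volume E = 0) := by
  obtain ⟨C, hC⟩ := hb
  have _ := hS
  have hk := fun k : ℕ => momg (HH_sa b hC) (ee 0) k
  refine ⟨mu b hC, Pool.Agent.H54R3.Spec508.mu_fin _ _, fun k => (hk k).1, ?_,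
    rn_zero b hC S nj hinf⟩
  intro k
  have h1 := (hk k).2
  rw [inner_ee] at h1
  have h2 := mom b hC k k le_rfl 0
  rw [← Complex.ofReal_inj]
  exact h1.trans h2.symm

end Pool.Agent.H725R3.SC7
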