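import Mathlib
import Pool.Agent.H508R3.SC

set_option autoImplicit false

open MeasureTheory Filter Topology Finset

namespace Pool.Agent.H725R3.SC2

open Pool.Agent.H508R3.SC

lemma abel (a c : ℕ → ℝ) (n : ℕ) :
    ∑ i ∈ range n, a i * c i = a n * (∑ i ∈ range n, c i) +
      ∑ i ∈ range n, (a i - a (i + 1)) * (∑ j ∈ range (i + 1), c j) := by
  induction n with
  | zero => simp
  | succ n ih =>
    rw [sum_range_succ, ih, sum_range_succ (fun i => (a i - a (i + 1)) * _), sum_range_succ c]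
    ring

lemma abel_le (a c : ℕ → ℝ) (B : ℝ) (ha : ∀ i, a (i + 1) ≤ a i) (h0 : ∀ i, 0 ≤ a i)
    (hc : ∀ n, |∑ i ∈ range n, c i| ≤ B) (n : ℕ) : |∑ i ∈ range n, a i * c i| ≤ a 0 * B := by
  rw [abel]
  have h1 : |a n * (∑ i ∈ range n, c i)| ≤ a n * B := by
    rw [abs_mul, abs_of_nonneg (h0 n)]
    exact mul_le_mul_of_nonneg_left (hc n) (h0 n)
  have h2 : |∑ i ∈ range n, (a i - a (i + 1)) * (∑ j ∈ range (i + 1), c j)| ≤
      ∑ i ∈ range n, (a i - a (i + 1)) * B := by
    refine (abs_sum_le_sum_abs _ _).trans (sum_le_sum fun i _ => ?_)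
    rw [abs_mul, abs_of_nonneg (sub_nonneg.mpr (ha i))]
    exact mul_le_mul_of_nonneg_left (hc _) (sub_nonneg.mpr (ha i))
  have h3 : ∑ i ∈ range n, (a i - a (i + 1)) * B = (a 0 - a n) * B := by
    rw [← sum_mul, sum_range_sub']
  calc |_ + _| ≤ |_| + |_| := abs_add_le _ _
    _ ≤ a n * B + (a 0 - a n) * B := by rw [← h3]; exact add_le_add h1 h2
    _ = a 0 * B := by ring

lemma tele (d : ℝ) (p n : ℕ) : 2 * Real.sin d * ∑ i ∈ range n, Real.cos (2 * d * ((p + i : ℕ) : ℝ)) =
    Real.sin (d * (2 * ((p : ℝ) + n) - 1)) - Real.sin (d * (2 * p - 1)) := by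
  induction n with
  | zero => simp
  | succ n ih =>
    rw [sum_range_succ, mul_add, ih]
    have h1 : 2 * Real.sin d * Real.cos (2 * d * ((p + n : ℕ) : ℝ)) =
        Real.sin (d * (2 * ((p : ℝ) + (n + 1 : ℕ)) - 1)) - Real.sin (d * (2 * ((p : ℝ) + n) - 1)) := by
      rw [Real.sin_sub_sin]
      congr 2
      · congr 1; push_cast; ring
      · push_cast; ring
    rw [h1]
    ring

lemma cos_sum (d : ℝ) (hd : Real.sin d ≠ 0) (p n : ℕ) :
    |∑ i ∈ range n, Real.cos (2 * d * ((p + i : ℕ) : ℝ))| ≤ 1 / |Real.sin d| := by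
  have h1 := tele d p n
  have h2 : |2 * Real.sin d * ∑ i ∈ range n, Real.cos (2 * d * ((p + i : ℕ) : ℝ))| ≤ 2 := by
    rw [h1]
    have a1 := Real.abs_sin_le_one (d * (2 * ((p : ℝ) + n) - 1))
    have a2 := Real.abs_sin_le_one (d * (2 * p - 1))
    calc |_ - _| ≤ |_| + |_| := abs_sub _ _
      _ ≤ 1 + 1 := add_le_add a1 a2
      _ = 2 := by norm_num
  rw [abs_mul, abs_mul, abs_of_pos (two_pos)] at h2
  have h3 : 0 < |Real.sin d| := abs_pos.mpr hd
  rw [le_div_iff₀ h3]
  nlinarith

lemma cos_tail (d : ℝ) (hd : Real.sin d ≠ 0) (p n : ℕ) (hp : 1 ≤ p) :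
    |∑ i ∈ range n, Real.cos (2 * d * ((p + i : ℕ) : ℝ)) / ((p + i : ℕ) : ℝ)| ≤
      1 / (p * |Real.sin d|) := by
  have hp' : (0 : ℝ) < p := by exact_mod_cast hp
  have h := abel_le (fun i => 1 / ((p + i : ℕ) : ℝ)) (fun i => Real.cos (2 * d * ((p + i : ℕ) : ℝ)))
    (1 / |Real.sin d|) (fun i => by
      apply one_div_le_one_div_of_le
      · push_cast; positivity
      · push_cast; linarith) (fun i => by positivity) (fun n => cos_sum d hd p n) n
  have h2 : ∑ i ∈ range n, Real.cos (2 * d * ((p + i : ℕ) : ℝ)) / ((p + i : ℕ) : ℝ) =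
      ∑ i ∈ range n, 1 / ((p + i : ℕ) : ℝ) * Real.cos (2 * d * ((p + i : ℕ) : ℝ)) :=
    sum_congr rfl fun i _ => by ring
  rw [h2]
  refine h.trans (le_of_eq ?_)
  simp only [add_zero]
  rw [div_mul_div_comm, one_mul]

lemma log_le_harm (n : ℕ) : Real.log (n + 1) ≤ ∑ m ∈ Icc 1 n, (1 : ℝ) / m := by
  have h := log_add_one_le_harmonic n
  rw [harmonic_eq_sum_Icc] at h
  push_cast at h
  simpa using h

theorem sum_abs_le (L : ℕ) (d : ℝ) (_hL : 1 ≤ L) :
    |∑ m ∈ Icc 1 L, Real.cos (2 * d * m) / m| ≤ 1 + Real.log L := by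
  have h := harmonic_le_one_add_log L
  rw [harmonic_eq_sum_Icc] at h
  push_cast at h
  refine le_trans ?_ h
  refine (abs_sum_le_sum_abs _ _).trans (sum_le_sum fun m hm => ?_)
  rw [abs_div, Nat.abs_cast, inv_eq_one_div]
  exact div_le_div_of_nonneg_right (Real.abs_cos_le_one _) (Nat.cast_nonneg m)

theorem cos_sum_lower : ∃ C : ℝ, ∀ (K L : ℕ) (d : ℝ), 1 ≤ K → K ≤ L → |d| ≤ 1 / K →
    (1 / 2) * Real.log K - C ≤ ∑ m ∈ Icc 1 L, Real.cos (2 * d * m) / m := by
  refine ⟨Real.log 4 + 8, ?_⟩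
  intro K L d hK hKL hd
  have hK' : (0 : ℝ) < K := by exact_mod_cast hK
  have hlog4 : 0 ≤ Real.log 4 := Real.log_nonneg (by norm_num)
  -- the first part
  have first : ∀ M : ℕ, |d| * M ≤ 1 / 4 → (1 / 2) * Real.log (M + 1) ≤
      ∑ m ∈ Icc 1 M, Real.cos (2 * d * m) / m := by
    intro M hM
    calc (1 / 2) * Real.log (M + 1) ≤ (1 / 2) * ∑ m ∈ Icc 1 M, (1 : ℝ) / m := by
          gcongr
          exact log_le_harm M
      _ = ∑ m ∈ Icc 1 M, (1 / 2 : ℝ) / m := by
          rw [mul_sum]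
          exact sum_congr rfl fun m _ => by ring
      _ ≤ _ := by
          refine sum_le_sum fun m hm => ?_
          obtain ⟨h1, h2⟩ := mem_Icc.mp hm
          apply div_le_div_of_nonneg_right _ (Nat.cast_nonneg m)
          have h3 : |2 * d * m| ≤ 1 / 2 := by
            rw [abs_mul, abs_mul, abs_of_pos (two_pos), Nat.abs_cast]
            have : |d| * m ≤ |d| * M := by
              gcongr
            linarith
          have h4 := Real.one_sub_sq_div_two_le_cos (x := 2 * d * m)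
          have h5 : (2 * d * m) ^ 2 ≤ (1 / 2) ^ 2 := by
            rw [← sq_abs]
            gcongr
          linarith
  by_cases hc : |d| * L ≤ 1 / 4
  · refine le_trans ?_ (first L hc)
    have : Real.log K ≤ Real.log (L + 1) := by
      apply Real.log_le_log hK'
      have : (K : ℝ) ≤ L := by exact_mod_cast hKL
      linarith
    linarith
  · push Not at hc
    have hL0 : (0 : ℝ) < L := by
      have : (K : ℝ) ≤ L := by exact_mod_cast hKL
      linarith
    have hd0 : 0 < |d| := by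
      rcases (abs_nonneg d).lt_or_eq with h | h
      · exact h
      · rw [← h] at hc; norm_num at hc
    set M : ℕ := ⌊1 / (4 * |d|)⌋₊ with hM
    have hM1 : (M : ℝ) ≤ 1 / (4 * |d|) := Nat.floor_le (by positivity)
    have hM2 : 1 / (4 * |d|) < M + 1 := Nat.lt_floor_add_one _
    have hML : M ≤ L := by
      have : (M : ℝ) ≤ L := by
        refine hM1.trans ?_
        rw [div_le_iff₀ (by positivity)]
        linarith
      exact_mod_cast this
    have hdM : |d| * M ≤ 1 / 4 := by
      calc |d| * M ≤ |d| * (1 / (4 * |d|)) := by gcongr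
        _ = 1 / 4 := by field_simp
    have h1 := first M hdM
    have hlt1 : |d| ≤ 1 := hd.trans (by
      rw [div_le_one hK']; exact_mod_cast hK)
    have hpi : |d| ≤ Real.pi / 2 := by
      have := Real.pi_gt_three
      linarith
    have hsin : 2 / Real.pi * |d| ≤ |Real.sin d| := Real.mul_abs_le_abs_sin hpi
    have hsin1 : 1 / 2 * |d| ≤ |Real.sin d| := by
      refine le_trans ?_ hsin
      have h4 : 1 / 2 ≤ 2 / Real.pi := by
        rw [div_le_div_iff₀ two_pos Real.pi_pos]
        linarith [Real.pi_le_four]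
      gcongr
    have hsin0 : Real.sin d ≠ 0 := by
      intro h
      rw [h, abs_zero] at hsin1
      linarith
    have h2 := cos_tail d hsin0 (M + 1) (L - M) (by omega)
    have h3 : (1 : ℝ) / (((M + 1 : ℕ) : ℝ) * |Real.sin d|) ≤ 8 := by
      rw [div_le_iff₀ (by have := abs_pos.mpr hsin0; positivity)]
      have h5 : 1 / 8 ≤ ((M + 1 : ℕ) : ℝ) * |Real.sin d| := by
        calc (1 : ℝ) / 8 = 1 / (4 * |d|) * (1 / 2 * |d|) := by field_simp; norm_num
          _ ≤ ((M + 1 : ℕ) : ℝ) * |Real.sin d| := by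
            apply mul_le_mul _ hsin1 (by positivity) (by positivity)
            push_cast
            exact hM2.le
      linarith
    have h4 : ∑ m ∈ Icc 1 L, Real.cos (2 * d * m) / m = ∑ m ∈ Icc 1 M, Real.cos (2 * d * m) / m +
        ∑ i ∈ range (L - M), Real.cos (2 * d * ((M + 1 + i : ℕ) : ℝ)) / ((M + 1 + i : ℕ) : ℝ) := by
      have e1 : Icc 1 L = Icc 1 M ∪ Ico (M + 1) (L + 1) := by
        ext x; simp only [mem_Icc, mem_union, mem_Ico]; omega
      have e2 : Disjoint (Icc 1 M) (Ico (M + 1) (L + 1)) := by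
        rw [Finset.disjoint_left]
        intro x hx hy
        simp only [mem_Icc, mem_Ico] at hx hy
        omega
      rw [e1, sum_union e2, sum_Ico_eq_sum_range]
      congr 1
      rw [show L + 1 - (M + 1) = L - M by omega]
    rw [h4]
    have h6 := (abs_le.mp h2).1
    have h7 : Real.log K - Real.log 4 ≤ Real.log (M + 1) := by
      rw [← Real.log_div hK'.ne' (by norm_num)]
      apply Real.log_le_log (by positivity)
      refine le_trans ?_ hM2.le
      rw [div_le_div_iff₀ (by norm_num) (by positivity)]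
      have : K * |d| ≤ 1 := by
        calc (K : ℝ) * |d| ≤ K * (1 / K) := by gcongr
          _ = 1 := by field_simp
      nlinarith
    linarith

/-- polynomial transfer matrices: rows `(p, q)` -/
noncomputable def PR (r : Polynomial ℝ × Polynomial ℝ) : List ℝ → Polynomial ℝ × Polynomial ℝ
  | [] => r
  | b :: w => ((PR r w).1 * (Polynomial.X - Polynomial.C b) + (PR r w).2, -(PR r w).1)

open Polynomial in
lemma PR_eval (E : ℝ) (w : List ℝ) :
    (PR (1, 0) w).1.eval E = Tw E w 0 0 ∧ (PR (1, 0) w).2.eval E = Tw E w 0 1 ∧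
    (PR (0, 1) w).1.eval E = Tw E w 1 0 ∧ (PR (0, 1) w).2.eval E = Tw E w 1 1 := by
  induction w with
  | nil => simp [PR, Tw]
  | cons b w ih =>
    obtain ⟨h1, h2, h3, h4⟩ := ih
    simp only [PR, Tw, Am, Matrix.mul_apply, Fin.sum_univ_two, Matrix.of_apply, Matrix.cons_val',
      Matrix.cons_val_zero, Matrix.cons_val_one, Matrix.cons_val_fin_one, eval_add, eval_mul,
      eval_sub, eval_X, eval_C, eval_neg, h1, h2, h3, h4]
    refine ⟨?_, ?_, ?_, ?_⟩ <;> ring

open Polynomial in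
lemma PR_fst (w : List ℝ) : (PR (1, 0) w).1.Monic ∧ (PR (1, 0) w).1.natDegree = w.length ∧
    (PR (1, 0) w).2.degree < w.length := by
  induction w with
  | nil => simp [PR]
  | cons b w ih =>
    obtain ⟨h1, h2, h3⟩ := ih
    set n := w.length with hn
    have hm : ((PR (1, 0) w).1 * (X - C b)).Monic := h1.mul (monic_X_sub_C _)
    have hd : ((PR (1, 0) w).1 * (X - C b)).natDegree = n + 1 := by
      rw [h1.natDegree_mul (monic_X_sub_C _), natDegree_X_sub_C, h2]
    have hdeg : ((PR (1, 0) w).1 * (X - C b)).degree = ((n + 1 : ℕ) : WithBot ℕ) := by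
      rw [degree_eq_natDegree hm.ne_zero, hd]
    have hlt : (PR (1, 0) w).2.degree < ((PR (1, 0) w).1 * (X - C b)).degree := by
      rw [hdeg]
      exact h3.trans (by exact_mod_cast Nat.lt_succ_self n)
    refine ⟨?_, ?_, ?_⟩
    · simp only [PR]
      exact hm.add_of_left hlt
    · simp only [PR]
      rw [natDegree_eq_of_degree_eq (degree_add_eq_left_of_degree_lt hlt), hd]
      rfl
    · simp only [PR]
      rw [degree_neg, degree_eq_natDegree h1.ne_zero, h2, List.length_cons]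
      exact_mod_cast Nat.lt_succ_self n

open Polynomial in
lemma PR_snd (w : List ℝ) (b : ℝ) : (PR (0, 1) (b :: w)).1.degree < ((w.length + 1 : ℕ) : WithBot ℕ) ∧
    (PR (0, 1) (b :: w)).2.degree < ((w.length + 1 : ℕ) : WithBot ℕ) := by
  induction w generalizing b with
  | nil =>
    simp only [PR]
    constructor
    · simp
    · simp
  | cons c w ih =>
    obtain ⟨h1, h2⟩ := ih c
    have hlt : ((w.length + 1 : ℕ) : WithBot ℕ) < (((c :: w).length + 1 : ℕ) : WithBot ℕ) := by
      rw [List.length_cons]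
      exact_mod_cast Nat.lt_succ_self _
    constructor
    · show ((PR (0, 1) (c :: w)).1 * (X - C b) + (PR (0, 1) (c :: w)).2).degree < _
      refine lt_of_le_of_lt (degree_add_le _ _) (max_lt ?_ (h2.trans hlt))
      refine lt_of_le_of_lt (degree_mul_le _ _) ?_
      rw [degree_X_sub_C]
      rcases eq_or_ne (PR (0, 1) (c :: w)).1 0 with h0 | h0
      · rw [h0, degree_zero]
        simp
      · rw [degree_eq_natDegree h0] at h1 ⊢
        have h3 : (PR (0, 1) (c :: w)).1.natDegree < w.length + 1 := by exact_mod_cast h1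
        have h4 : (PR (0, 1) (c :: w)).1.natDegree + 1 < (c :: w).length + 1 := by
          rw [List.length_cons]; omega
        exact_mod_cast h4
    · show (-(PR (0, 1) (c :: w)).1).degree < _
      rw [degree_neg]
      exact h1.trans hlt

open Polynomial in
lemma tr_deg (w : List ℝ) (hw : w ≠ []) :
    0 < ((PR (1, 0) w).1 + (PR (0, 1) w).2).natDegree := by
  obtain ⟨b, w, rfl⟩ := List.exists_cons_of_ne_nil hw
  obtain ⟨h1, h2, _⟩ := PR_fst (b :: w)
  obtain ⟨_, h4⟩ := PR_snd w b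
  have hd : (PR (1, 0) (b :: w)).1.degree = ((w.length + 1 : ℕ) : WithBot ℕ) := by
    rw [degree_eq_natDegree h1.ne_zero, h2, List.length_cons]
  rw [natDegree_add_eq_left_of_degree_lt (by rw [hd]; exact h4), h2, List.length_cons]
  omega

lemma trace_eq (θ : ℝ) (hθ : Real.sin θ ≠ 0) (w : List ℝ) :
    (Th θ w).trace = (Tw (2 * Real.cos θ) w).trace := by
  have h := Sm_Tw θ hθ w
  have hdet : IsUnit (Sm θ).det := by
    rw [isUnit_iff_ne_zero]
    simp [Sm, Matrix.det_fin_two_of, hθ]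
  have h2 : Th θ w = Sm θ * Tw (2 * Real.cos θ) w * (Sm θ)⁻¹ := by
    rw [h, Matrix.mul_assoc, Matrix.mul_nonsing_inv _ hdet, Matrix.mul_one]
  rw [h2, Matrix.trace_mul_comm, ← Matrix.mul_assoc, Matrix.nonsing_inv_mul _ hdet, Matrix.one_mul]

/-- the parameter interval -/
abbrev TH : Set ℝ := Set.Icc (Real.pi / 8) (3 * Real.pi / 8)

open Polynomial in
lemma fin_level (w : List ℝ) (hw : w ≠ []) (c : ℝ) : {θ ∈ TH | (Th θ w).trace = c}.Finite := by
  set P : ℝ[X] := (PR (1, 0) w).1 + (PR (0, 1) w).2 - C c with hP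
  have hP0 : P ≠ 0 := by
    intro h
    have h1 := tr_deg w hw
    have h2 : (PR (1, 0) w).1 + (PR (0, 1) w).2 = C c := by
      rw [hP] at h
      exact sub_eq_zero.mp h
    rw [h2, natDegree_C] at h1
    exact lt_irrefl _ h1
  have hfin : (P.roots.toFinset : Set ℝ).Finite := Finset.finite_toSet _
  refine Set.Finite.of_finite_image (f := fun θ => 2 * Real.cos θ) (hfin.subset ?_) ?_
  · rintro x ⟨θ, ⟨hθ, ht⟩, rfl⟩
    have hpi := Real.pi_pos
    have hsin : Real.sin θ ≠ 0 := by
      apply ne_of_gt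
      apply Real.sin_pos_of_pos_of_lt_pi
      · have := hθ.1; linarith
      · have := hθ.2; linarith
    rw [Finset.mem_coe, Multiset.mem_toFinset, mem_roots hP0, IsRoot.def, hP]
    obtain ⟨h1, _, _, h4⟩ := PR_eval (2 * Real.cos θ) w
    rw [trace_eq θ hsin, Matrix.trace_fin_two] at ht
    simp only [eval_sub, eval_add, eval_C, h1, h4, ht, sub_self]
  · rintro x ⟨hx, _⟩ y ⟨hy, _⟩ hxy
    have hpi := Real.pi_pos
    simp only at hxy
    apply Real.injOn_cos
    · exact ⟨by have := hx.1; linarith, by have := hx.2; linarith⟩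
    · exact ⟨by have := hy.1; linarith, by have := hy.2; linarith⟩
    · linarith

theorem irr_ae (w : List ℝ) (hw : w ≠ []) : ∀ᵐ θ ∂(volume.restrict TH),
    |(Th θ w).trace| < 2 → Irrational (Real.arccos ((Th θ w).trace / 2) / Real.pi) := by
  rw [ae_restrict_iff' measurableSet_Icc]
  have hcount : (⋃ q : ℚ, {θ ∈ TH | (Th θ w).trace = 2 * Real.cos (Real.pi * q)}).Countable :=
    Set.countable_iUnion fun q => (fin_level w hw _).countable
  have h0 : ∀ᵐ θ ∂(volume : Measure ℝ),
      θ ∉ ⋃ q : ℚ, {θ ∈ TH | (Th θ w).trace = 2 * Real.cos (Real.pi * q)} :=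
    measure_eq_zero_iff_ae_notMem.mp (hcount.measure_zero _)
  filter_upwards [h0] with θ hθ hTH htr
  rintro ⟨q, hq⟩
  apply hθ
  rw [Set.mem_iUnion]
  refine ⟨q, hTH, ?_⟩
  have h1 : Real.arccos ((Th θ w).trace / 2) = Real.pi * q := by
    rw [hq]
    field_simp
  rw [← h1, Real.cos_arccos]
  · ring
  · have := (abs_lt.mp htr).1; linarith
  · have := (abs_lt.mp htr).2; linarith

end Pool.Agent.H725R3.SC2
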