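import Pool.Agent.H723R3.Beur.Defs

set_option autoImplicit false
set_option linter.unusedSectionVars false
set_option linter.unusedVariables false

/-!
# Wrapper for the project BEURLING (MP_cecf91_an)

The first Arens product on the second dual of a complex normed algebra, the Beurling algebra
`ℓ¹(G, w)` of a discrete group, and: if the real model has a nilpotent element then the Jacobson
radical of `ℓ¹(G, w)''` is not zero.
-/

namespace BeurW

open scoped BoundedContinuousFunction

universe u v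

/-! ### The first Arens product -/

section Arens
variable {A : Type v} [NormedRing A] [NormedAlgebra ℂ A]

/-- `(f · a)(b) = f (a b)` for `f ∈ A'`, `a ∈ A` -/
noncomputable def fa (f : StrongDual ℂ A) (a : A) : StrongDual ℂ A :=
  f.comp (ContinuousLinearMap.mul ℂ A a)

@[simp] lemma fa_apply (f : StrongDual ℂ A) (a b : A) : fa f a b = f (a * b) := rfl

lemma fa_norm (f : StrongDual ℂ A) (a : A) : ‖fa f a‖ ≤ ‖f‖ * ‖a‖ :=
  ContinuousLinearMap.opNorm_le_bound _ (by positivity) fun b => by
    rw [fa_apply]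
    calc ‖f (a * b)‖ ≤ ‖f‖ * ‖a * b‖ := f.le_opNorm _
      _ ≤ ‖f‖ * (‖a‖ * ‖b‖) := by gcongr; exact norm_mul_le a b
      _ = _ := by ring

/-- `(Ψ · f)(a) = Ψ (f · a)` for `Ψ ∈ A''`, `f ∈ A'` -/
noncomputable def pf (Ψ : StrongDual ℂ (StrongDual ℂ A)) (f : StrongDual ℂ A) : StrongDual ℂ A :=
  LinearMap.mkContinuous
    { toFun := fun a => Ψ (fa f a)
      map_add' := fun a b => by
        rw [← map_add]
        congr 1
        ext c
        simp [add_mul]
      map_smul' := fun c a => by
        rw [RingHom.id_apply, ← map_smul]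
        congr 1
        ext b
        simp }
    (‖Ψ‖ * ‖f‖) fun a => by
      change ‖Ψ (fa f a)‖ ≤ _
      calc ‖Ψ (fa f a)‖ ≤ ‖Ψ‖ * ‖fa f a‖ := Ψ.le_opNorm _
        _ ≤ ‖Ψ‖ * (‖f‖ * ‖a‖) := by gcongr; exact fa_norm f a
        _ = _ := by ring

@[simp] lemma pf_apply (Ψ : StrongDual ℂ (StrongDual ℂ A)) (f : StrongDual ℂ A) (a : A) :
    pf Ψ f a = Ψ (fa f a) := rfl

lemma pf_norm (Ψ : StrongDual ℂ (StrongDual ℂ A)) (f : StrongDual ℂ A) : ‖pf Ψ f‖ ≤ ‖Ψ‖ * ‖f‖ :=
  LinearMap.mkContinuous_norm_le _ (by positivity) _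

/-- the first Arens product `(Φ □ Ψ)(f) = Φ (Ψ · f)` -/
noncomputable def arens (Φ Ψ : StrongDual ℂ (StrongDual ℂ A)) : StrongDual ℂ (StrongDual ℂ A) :=
  LinearMap.mkContinuous
    { toFun := fun f => Φ (pf Ψ f)
      map_add' := fun f g => by
        rw [← map_add]
        congr 1
        ext a
        simp only [pf_apply, add_apply]
        rw [← map_add]
        rfl
      map_smul' := fun c f => by
        rw [RingHom.id_apply, ← map_smul]
        congr 1
        ext a
        simp only [pf_apply, smul_apply]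
        rw [← map_smul]
        rfl }
    (‖Φ‖ * ‖Ψ‖) fun f => by
      change ‖Φ (pf Ψ f)‖ ≤ _
      calc ‖Φ (pf Ψ f)‖ ≤ ‖Φ‖ * ‖pf Ψ f‖ := Φ.le_opNorm _
        _ ≤ ‖Φ‖ * (‖Ψ‖ * ‖f‖) := by gcongr; exact pf_norm Ψ f
        _ = _ := by ring

@[simp] lemma arens_apply (Φ Ψ : StrongDual ℂ (StrongDual ℂ A)) (f : StrongDual ℂ A) :
    arens Φ Ψ f = Φ (pf Ψ f) := rfl

lemma arens_assoc (Φ Ψ Θ : StrongDual ℂ (StrongDual ℂ A)) :
    arens (arens Φ Ψ) Θ = arens Φ (arens Ψ Θ) := by
  ext f
  simp only [arens_apply]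
  congr 1
  ext a
  simp only [pf_apply, arens_apply]
  congr 1
  ext b
  simp only [pf_apply, fa_apply]
  congr 1
  ext c
  simp [mul_assoc]

lemma arens_add_left (Φ Ψ Θ : StrongDual ℂ (StrongDual ℂ A)) :
    arens (Φ + Ψ) Θ = arens Φ Θ + arens Ψ Θ := by
  ext f; simp

lemma arens_add_right (Φ Ψ Θ : StrongDual ℂ (StrongDual ℂ A)) :
    arens Φ (Ψ + Θ) = arens Φ Ψ + arens Φ Θ := by
  ext f
  simp only [arens_apply, add_apply]
  rw [← map_add]
  congr 1

lemma arens_zero_left (Φ : StrongDual ℂ (StrongDual ℂ A)) : arens 0 Φ = 0 := by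
  ext f; simp

lemma arens_zero_right (Φ : StrongDual ℂ (StrongDual ℂ A)) : arens Φ 0 = 0 := by
  ext f
  simp only [arens_apply, zero_apply]
  rw [← map_zero Φ]
  congr 1

/-- the unit of `A''`: evaluation at `1` -/
noncomputable def ev1 : StrongDual ℂ (StrongDual ℂ A) := ContinuousLinearMap.apply ℂ ℂ (1 : A)

@[simp] lemma ev1_apply (f : StrongDual ℂ A) : (ev1 : StrongDual ℂ (StrongDual ℂ A)) f = f 1 := rfl

lemma arens_one_left (Φ : StrongDual ℂ (StrongDual ℂ A)) : arens ev1 Φ = Φ := by
  ext f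
  simp only [arens_apply, ev1_apply, pf_apply]
  congr 1
  ext a
  simp

lemma arens_one_right (Φ : StrongDual ℂ (StrongDual ℂ A)) : arens Φ ev1 = Φ := by
  ext f
  simp only [arens_apply]
  congr 1
  ext a
  simp

end Arens

/-- The second dual `A''` of a complex (unital) normed algebra `A`, as a ring whose product is the
first Arens product `(Φ □ Ψ)(f) = Φ (Ψ · f)`, `(Ψ · f)(a) = Ψ (f · a)`, `(f · a)(b) = f (a b)`. -/
def Bidual (A : Type v) [NormedRing A] [NormedAlgebra ℂ A] : Type v :=
  StrongDual ℂ (StrongDual ℂ A)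

noncomputable instance instAddCommGroupBidual (A : Type v) [NormedRing A] [NormedAlgebra ℂ A] :
    AddCommGroup (Bidual A) := inferInstanceAs (AddCommGroup (StrongDual ℂ (StrongDual ℂ A)))

noncomputable instance instRingBidual (A : Type v) [NormedRing A] [NormedAlgebra ℂ A] :
    Ring (Bidual A) :=
  { instAddCommGroupBidual A with
    mul := arens
    one := ev1
    mul_assoc := arens_assoc
    one_mul := arens_one_left
    mul_one := arens_one_right
    left_distrib := arens_add_right
    right_distrib := arens_add_left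
    zero_mul := arens_zero_left
    mul_zero := arens_zero_right }

/-- an element generating a nilpotent left ideal lies in the radical -/
lemma jacobson_ne_bot {R : Type v} [Ring R] (n : R) (hn : n ≠ 0) (h : ∀ x, n * (x * n) = 0) :
    Ring.jacobson R ≠ ⊥ := by
  intro hj
  have h1 : n ∈ Ideal.jacobson (⊥ : Ideal R) := by
    rw [Ideal.mem_jacobson_iff]
    intro y
    refine ⟨1 - y * n, ?_⟩
    have h2 := h y
    have : (1 - y * n) * y * n + (1 - y * n) - 1 = - (y * (n * (y * n))) := by
      noncomm_ring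
    rw [this, h2]
    simp
  rw [Ideal.jacobson_bot, hj] at h1
  exact hn (by simpa using h1)

/-! ### Beurling algebras -/

/-- A weight on a (discrete) group. -/
structure Weight (G : Type u) [Group G] where
  /-- the function `w : G → (0, ∞)` -/
  toFun : G → ℝ
  pos : ∀ g, 0 < toFun g
  mul_le : ∀ g h, toFun (g * h) ≤ toFun g * toFun h
  one : toFun 1 = 1

/-- `A`, with the point masses `δ g`, is isometrically a dense subalgebra of `ℓ¹(G, w)` containing
the finitely supported functions (and it is `ℓ¹(G, w)` if `A` is complete). -/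
structure IsBeurling {G : Type u} [Group G] (w : Weight G) (A : Type v) [NormedRing A]
    [NormedAlgebra ℂ A] (δ : G →* A) : Prop where
  norm_eq : ∀ c : G →₀ ℂ, ‖Finsupp.linearCombination ℂ δ c‖ = c.sum fun g z => ‖z‖ * w.toFun g
  dense : DenseRange (Finsupp.linearCombination ℂ δ)

/-- the kernel `w(gh)/(w(g) w(h))` -/
noncomputable def Weight.ker {G : Type u} [Group G] (w : Weight G) : Beur.Ker G where
  Om g h := w.toFun (g * h) / (w.toFun g * w.toFun h)
  pos g h := div_pos (w.pos _) (mul_pos (w.pos _) (w.pos _))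
  le_one g h := by
    rw [div_le_one (mul_pos (w.pos _) (w.pos _))]
    exact w.mul_le g h
  cocycle g h k := by
    have h1 := (w.pos g).ne'
    have h2 := (w.pos h).ne'
    have h3 := (w.pos k).ne'
    have h4 := (w.pos (g * h)).ne'
    have h5 := (w.pos (h * k)).ne'
    field_simp
    rw [mul_assoc g h k]
  one_left g := by
    rw [one_mul, w.one, one_mul]
    exact div_self (w.pos g).ne'
  one_right g := by
    rw [mul_one, w.one, mul_one]
    exact div_self (w.pos g).ne'

section Transfer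
variable {G : Type u} [Group G] [TopologicalSpace G] [DiscreteTopology G] {w : Weight G}
  {A : Type v} [NormedRing A] [NormedAlgebra ℂ A] {δ : G →* A}

lemma IsBeurling.norm_delta (H : IsBeurling w A δ) (g : G) : ‖δ g‖ = w.toFun g := by
  have := H.norm_eq (Finsupp.single g 1)
  simpa using this

lemma IsBeurling.ext_dual (H : IsBeurling w A δ) {f f' : StrongDual ℂ A}
    (h : ∀ g, f (δ g) = f' (δ g)) : f = f' := by
  have : (f : A → ℂ) = f' := by
    refine H.dense.equalizer f.continuous f'.continuous ?_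
    ext c
    simp only [Function.comp_apply, Finsupp.linearCombination_apply, Finsupp.sum, map_sum, map_smul, h]
  exact DFunLike.coe_injective this

lemma bd_aux (H : IsBeurling w A δ) (f : StrongDual ℂ A) (g : G) :
    ‖f (δ g)‖ / w.toFun g ≤ ‖f‖ := by
  rw [div_le_iff₀ (w.pos g), ← H.norm_delta g]
  exact f.le_opNorm _

/-- real part of a functional in normalised coordinates -/
noncomputable def reP (H : IsBeurling w A δ) (f : StrongDual ℂ A) : G →ᵇ ℝ :=
  Beur.mkB (fun g => (f (δ g)).re / w.toFun g) ‖f‖ fun g => by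
    rw [norm_div, Real.norm_of_nonneg (w.pos g).le]
    refine le_trans ?_ (bd_aux H f g)
    have := (w.pos g).le
    gcongr
    exact Complex.abs_re_le_norm _

/-- imaginary part of a functional in normalised coordinates -/
noncomputable def imP (H : IsBeurling w A δ) (f : StrongDual ℂ A) : G →ᵇ ℝ :=
  Beur.mkB (fun g => (f (δ g)).im / w.toFun g) ‖f‖ fun g => by
    rw [norm_div, Real.norm_of_nonneg (w.pos g).le]
    refine le_trans ?_ (bd_aux H f g)
    have := (w.pos g).le
    gcongr
    exact Complex.abs_im_le_norm _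

@[simp] lemma reP_apply (H : IsBeurling w A δ) (f : StrongDual ℂ A) (g : G) :
    reP H f g = (f (δ g)).re / w.toFun g := rfl

@[simp] lemma imP_apply (H : IsBeurling w A δ) (f : StrongDual ℂ A) (g : G) :
    imP H f g = (f (δ g)).im / w.toFun g := rfl

lemma reP_norm (H : IsBeurling w A δ) (f : StrongDual ℂ A) : ‖reP H f‖ ≤ ‖f‖ := by
  refine (BoundedContinuousFunction.norm_le (norm_nonneg _)).2 fun g => ?_
  rw [reP_apply, norm_div, Real.norm_of_nonneg (w.pos g).le]
  refine le_trans ?_ (bd_aux H f g)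
  have := (w.pos g).le
  gcongr
  exact Complex.abs_re_le_norm _

lemma imP_norm (H : IsBeurling w A δ) (f : StrongDual ℂ A) : ‖imP H f‖ ≤ ‖f‖ := by
  refine (BoundedContinuousFunction.norm_le (norm_nonneg _)).2 fun g => ?_
  rw [imP_apply, norm_div, Real.norm_of_nonneg (w.pos g).le]
  refine le_trans ?_ (bd_aux H f g)
  have := (w.pos g).le
  gcongr
  exact Complex.abs_im_le_norm _

/-- the complexification of a real functional on `ℓ^∞(G)` -/
noncomputable def nC (H : IsBeurling w A δ) (n : StrongDual ℝ (G →ᵇ ℝ)) :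
    StrongDual ℂ (StrongDual ℂ A) :=
  LinearMap.mkContinuous
    { toFun := fun f => (n (reP H f) : ℂ) + Complex.I * (n (imP H f) : ℂ)
      map_add' := fun f f' => by
        have h1 : reP H (f + f') = reP H f + reP H f' := by ext g; simp [add_div]
        have h2 : imP H (f + f') = imP H f + imP H f' := by ext g; simp [add_div]
        rw [h1, h2, map_add, map_add]
        push_cast
        ring
      map_smul' := fun c f => by
        have h1 : reP H (c • f) = c.re • reP H f - c.im • imP H f := by ext g; simp; ring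
        have h2 : imP H (c • f) = c.re • imP H f + c.im • reP H f := by ext g; simp; ring
        rw [h1, h2, map_sub, map_add, map_smul, map_smul, map_smul, map_smul]
        simp only [smul_eq_mul, RingHom.id_apply]
        push_cast
        conv_rhs => rw [← Complex.re_add_im c]
        ring_nf
        rw [Complex.I_sq]
        ring }
    (2 * ‖n‖) fun f => by
      change ‖(n (reP H f) : ℂ) + Complex.I * (n (imP H f) : ℂ)‖ ≤ _
      calc _ ≤ ‖(n (reP H f) : ℂ)‖ + ‖Complex.I * (n (imP H f) : ℂ)‖ := norm_add_le _ _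
        _ = ‖n (reP H f)‖ + ‖n (imP H f)‖ := by
          rw [norm_mul, Complex.norm_I, one_mul, Complex.norm_real, Complex.norm_real]
        _ ≤ ‖n‖ * ‖f‖ + ‖n‖ * ‖f‖ := by
          have h1 := n.le_opNorm (reP H f)
          have h2 := n.le_opNorm (imP H f)
          have h3 := mul_le_mul_of_nonneg_left (reP_norm H f) (norm_nonneg n)
          have h4 := mul_le_mul_of_nonneg_left (imP_norm H f) (norm_nonneg n)
          linarith
        _ = _ := by ring

lemma nC_apply (H : IsBeurling w A δ) (n : StrongDual ℝ (G →ᵇ ℝ)) (f : StrongDual ℂ A) :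
    nC H n f = (n (reP H f) : ℂ) + Complex.I * (n (imP H f) : ℂ) := rfl

/-- translation in normalised coordinates -/
lemma reP_fa (H : IsBeurling w A δ) (f : StrongDual ℂ A) (g : G) :
    reP H (fa f (δ g)) = w.toFun g • Beur.L w.ker g (reP H f) := by
  ext h
  simp only [reP_apply, fa_apply, BoundedContinuousFunction.coe_smul, Beur.L_apply, Weight.ker,
    smul_eq_mul, ← map_mul]
  have h1 := (w.pos g).ne'
  have h2 := (w.pos h).ne'
  have h3 := (w.pos (g * h)).ne'
  field_simp

lemma imP_fa (H : IsBeurling w A δ) (f : StrongDual ℂ A) (g : G) :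
    imP H (fa f (δ g)) = w.toFun g • Beur.L w.ker g (imP H f) := by
  ext h
  simp only [imP_apply, fa_apply, BoundedContinuousFunction.coe_smul, Beur.L_apply, Weight.ker,
    smul_eq_mul, ← map_mul]
  have h1 := (w.pos g).ne'
  have h2 := (w.pos h).ne'
  have h3 := (w.pos (g * h)).ne'
  field_simp

/-- existence of functionals with prescribed real bounded normalised values -/
noncomputable def exF (H : IsBeurling w A δ) (F : G →ᵇ ℝ) : StrongDual ℂ A :=
  (Finsupp.linearCombination ℂ (fun g => ((F g * w.toFun g : ℝ) : ℂ))).extendOfNorm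
    (Finsupp.linearCombination ℂ δ)

lemma exF_bd (H : IsBeurling w A δ) (F : G →ᵇ ℝ) (c : G →₀ ℂ) :
    ‖Finsupp.linearCombination ℂ (fun g => ((F g * w.toFun g : ℝ) : ℂ)) c‖ ≤
      ‖F‖ * ‖Finsupp.linearCombination ℂ δ c‖ := by
  rw [H.norm_eq c, Finsupp.linearCombination_apply, Finsupp.sum, Finsupp.sum, Finset.mul_sum]
  refine (norm_sum_le _ _).trans (Finset.sum_le_sum fun g _ => ?_)
  rw [smul_eq_mul, norm_mul, Complex.norm_real, norm_mul, Real.norm_of_nonneg (w.pos g).le]
  have h1 := F.norm_coe_le_norm g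
  have h2 := mul_le_mul_of_nonneg_right h1 (mul_nonneg (norm_nonneg (c g)) (w.pos g).le)
  calc ‖c g‖ * (‖F g‖ * w.toFun g) = ‖F g‖ * (‖c g‖ * w.toFun g) := by ring
    _ ≤ _ := h2

@[simp] lemma exF_delta (H : IsBeurling w A δ) (F : G →ᵇ ℝ) (g : G) :
    exF H F (δ g) = ((F g * w.toFun g : ℝ) : ℂ) := by
  have := LinearMap.extendOfNorm_eq H.dense ⟨‖F‖, exF_bd H F⟩ (Finsupp.single g 1)
  simpa [exF] using this

lemma exF_norm (H : IsBeurling w A δ) (F : G →ᵇ ℝ) : ‖exF H F‖ ≤ ‖F‖ :=
  LinearMap.opNorm_extendOfNorm_le H.dense (norm_nonneg F) (exF_bd H F)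

lemma exF_add (H : IsBeurling w A δ) (F F' : G →ᵇ ℝ) : exF H (F + F') = exF H F + exF H F' := by
  refine H.ext_dual fun g => ?_
  simp [add_mul]

lemma exF_smul (H : IsBeurling w A δ) (c : ℝ) (F : G →ᵇ ℝ) : exF H (c • F) = (c : ℂ) • exF H F := by
  refine H.ext_dual fun g => ?_
  simp [mul_assoc]

lemma decomp (H : IsBeurling w A δ) (f : StrongDual ℂ A) :
    f = exF H (reP H f) + Complex.I • exF H (imP H f) := by
  refine H.ext_dual fun g => ?_
  have h1 := (w.pos g).ne'
  simp only [add_apply, smul_apply, exF_delta, reP_apply,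
    imP_apply, div_mul_cancel₀ _ h1, smul_eq_mul]
  rw [mul_comm Complex.I]
  exact (Complex.re_add_im _).symm

@[simp] lemma reP_exF (H : IsBeurling w A δ) (F : G →ᵇ ℝ) : reP H (exF H F) = F := by
  ext g
  have h1 := (w.pos g).ne'
  rw [reP_apply, exF_delta, Complex.ofReal_re, mul_div_cancel_right₀ _ h1]

@[simp] lemma imP_exF (H : IsBeurling w A δ) (F : G →ᵇ ℝ) : imP H (exF H F) = 0 := by
  ext g
  rw [imP_apply, exF_delta, Complex.ofReal_im, zero_div]
  rfl

/-- real part of an element of the bidual -/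
noncomputable def rB (H : IsBeurling w A δ) (Φ : StrongDual ℂ (StrongDual ℂ A)) :
    StrongDual ℝ (G →ᵇ ℝ) :=
  LinearMap.mkContinuous
    { toFun := fun F => (Φ (exF H F)).re
      map_add' := fun F F' => by rw [exF_add, map_add, Complex.add_re]
      map_smul' := fun c F => by
        rw [exF_smul, map_smul, smul_eq_mul, Complex.re_ofReal_mul]; rfl }
    ‖Φ‖ fun F => by
      change ‖(Φ (exF H F)).re‖ ≤ _
      calc _ ≤ ‖Φ (exF H F)‖ := Complex.abs_re_le_norm _
        _ ≤ ‖Φ‖ * ‖exF H F‖ := Φ.le_opNorm _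
        _ ≤ _ := by gcongr; exact exF_norm H F

/-- imaginary part of an element of the bidual -/
noncomputable def iB (H : IsBeurling w A δ) (Φ : StrongDual ℂ (StrongDual ℂ A)) :
    StrongDual ℝ (G →ᵇ ℝ) :=
  LinearMap.mkContinuous
    { toFun := fun F => (Φ (exF H F)).im
      map_add' := fun F F' => by rw [exF_add, map_add, Complex.add_im]
      map_smul' := fun c F => by
        rw [exF_smul, map_smul, smul_eq_mul, Complex.im_ofReal_mul]; rfl }
    ‖Φ‖ fun F => by
      change ‖(Φ (exF H F)).im‖ ≤ _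
      calc _ ≤ ‖Φ (exF H F)‖ := Complex.abs_im_le_norm _
        _ ≤ ‖Φ‖ * ‖exF H F‖ := Φ.le_opNorm _
        _ ≤ _ := by gcongr; exact exF_norm H F

lemma rB_apply (H : IsBeurling w A δ) (Φ : StrongDual ℂ (StrongDual ℂ A)) (F : G →ᵇ ℝ) :
    rB H Φ F = (Φ (exF H F)).re := rfl

lemma iB_apply (H : IsBeurling w A δ) (Φ : StrongDual ℂ (StrongDual ℂ A)) (F : G →ᵇ ℝ) :
    iB H Φ F = (Φ (exF H F)).im := rfl

lemma Phi_re (H : IsBeurling w A δ) (Φ : StrongDual ℂ (StrongDual ℂ A)) (f : StrongDual ℂ A) :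
    (Φ f).re = rB H Φ (reP H f) - iB H Φ (imP H f) := by
  conv_lhs => rw [decomp H f, map_add, map_smul]
  simp [rB_apply, iB_apply, sub_eq_add_neg]

lemma Phi_im (H : IsBeurling w A δ) (Φ : StrongDual ℂ (StrongDual ℂ A)) (f : StrongDual ℂ A) :
    (Φ f).im = iB H Φ (reP H f) + rB H Φ (imP H f) := by
  conv_lhs => rw [decomp H f, map_add, map_smul]
  simp [rB_apply, iB_apply]

lemma reP_pf_nC (H : IsBeurling w A δ) (n : StrongDual ℝ (G →ᵇ ℝ)) (f : StrongDual ℂ A) :
    reP H (pf (nC H n) f) = Beur.act w.ker n (reP H f) := by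
  ext g
  have h1 := (w.pos g).ne'
  rw [reP_apply, pf_apply, nC_apply, Beur.act_apply, reP_fa, map_smul]
  simp
  field_simp

lemma imP_pf_nC (H : IsBeurling w A δ) (n : StrongDual ℝ (G →ᵇ ℝ)) (f : StrongDual ℂ A) :
    imP H (pf (nC H n) f) = Beur.act w.ker n (imP H f) := by
  ext g
  have h1 := (w.pos g).ne'
  rw [imP_apply, pf_apply, nC_apply, Beur.act_apply, imP_fa, map_smul]
  simp
  field_simp

lemma nil_aux (H : IsBeurling w A δ) (n : StrongDual ℝ (G →ᵇ ℝ))
    (hn : ∀ Ψ, Beur.box w.ker n (Beur.box w.ker Ψ n) = 0)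
    (Φ : StrongDual ℂ (StrongDual ℂ A)) : arens (nC H n) (arens Φ (nC H n)) = 0 := by
  ext f
  rw [arens_apply, nC_apply]
  have h1 : reP H (pf (arens Φ (nC H n)) f) =
      Beur.act w.ker (Beur.box w.ker (rB H Φ) n) (reP H f) -
      Beur.act w.ker (Beur.box w.ker (iB H Φ) n) (imP H f) := by
    ext g
    have h1 := (w.pos g).ne'
    simp only [reP_apply, pf_apply, arens_apply, BoundedContinuousFunction.coe_sub, Pi.sub_apply,
      Beur.act_apply, Beur.box_apply]
    rw [Phi_re H, reP_pf_nC, imP_pf_nC, reP_fa, imP_fa, map_smul, map_smul, map_smul, map_smul,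
      smul_eq_mul, smul_eq_mul]
    field_simp
  have h2 : imP H (pf (arens Φ (nC H n)) f) =
      Beur.act w.ker (Beur.box w.ker (iB H Φ) n) (reP H f) +
      Beur.act w.ker (Beur.box w.ker (rB H Φ) n) (imP H f) := by
    ext g
    have h1 := (w.pos g).ne'
    simp only [imP_apply, pf_apply, arens_apply, BoundedContinuousFunction.coe_add, Pi.add_apply,
      Beur.act_apply, Beur.box_apply]
    rw [Phi_im H, reP_pf_nC, imP_pf_nC, reP_fa, imP_fa, map_smul, map_smul, map_smul, map_smul,
      smul_eq_mul, smul_eq_mul]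
    field_simp
  have h3 : ∀ (Ψ : StrongDual ℝ (G →ᵇ ℝ)) (F : G →ᵇ ℝ),
      n (Beur.act w.ker (Beur.box w.ker Ψ n) F) = 0 := by
    intro Ψ F
    have := congrArg (fun x => x F) (hn Ψ)
    simpa using this
  rw [h1, h2, map_sub, map_add, h3, h3, h3, h3]
  simp

/-- **Transfer**: a nilpotent element of the real model gives a nonzero Jacobson radical. -/
theorem transfer (H : IsBeurling w A δ) (hK : Beur.HasNil w.ker) : Ring.jacobson (Bidual A) ≠ ⊥ := by
  obtain ⟨n, hn0, hn⟩ := hK
  refine jacobson_ne_bot (R := Bidual A) (nC H n) ?_ (fun x => nil_aux H n hn x)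
  intro h0
  apply hn0
  ext F
  have h1 : nC H n (exF H F) = 0 := by
    have h2 : nC H n = (0 : StrongDual ℂ (StrongDual ℂ A)) := h0
    rw [h2]
    rfl
  rw [nC_apply, reP_exF, imP_exF, map_zero] at h1
  simpa using h1

end Transfer

end BeurW
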