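import Pool.Agent.H725R3.BeurC

set_option autoImplicit false
set_option linter.unusedSectionVars false

/-!
# The Beurling algebra `ℓ¹(G, w)` of a discrete group as a completion
-/

namespace BeurW

universe u

variable {G : Type u} [Group G]

/-- the group algebra `ℂ[G]` (finitely supported functions with convolution), to be normed by
`‖a‖ = ∑ |a g| w(g)` -/
def FinAlg (_w : Weight G) : Type u := MonoidAlgebra ℂ G

noncomputable instance (w : Weight G) : Ring (FinAlg w) := inferInstanceAs (Ring (MonoidAlgebra ℂ G))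
noncomputable instance (w : Weight G) : Algebra ℂ (FinAlg w) :=
  inferInstanceAs (Algebra ℂ (MonoidAlgebra ℂ G))

/-- the weighted `ℓ¹` norm of a finitely supported function -/
noncomputable def wn (w : Weight G) (c : G →₀ ℂ) : ℝ := c.sum fun g z => ‖z‖ * w.toFun g

lemma wn_nonneg (w : Weight G) (c : G →₀ ℂ) : 0 ≤ wn w c :=
  Finset.sum_nonneg fun g _ => mul_nonneg (norm_nonneg _) (w.pos g).le

lemma wn_of_subset (w : Weight G) (c : G →₀ ℂ) (s : Finset G) (hs : c.support ⊆ s) :
    wn w c = ∑ g ∈ s, ‖c g‖ * w.toFun g :=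
  Finsupp.sum_of_support_subset c hs _ (by simp)

lemma wn_add (w : Weight G) (a b : G →₀ ℂ) : wn w (a + b) ≤ wn w a + wn w b := by
  classical
  rw [wn_of_subset w (a + b) _ Finsupp.support_add,
    wn_of_subset w a (a.support ∪ b.support) Finset.subset_union_left,
    wn_of_subset w b (a.support ∪ b.support) Finset.subset_union_right, ← Finset.sum_add_distrib]
  refine Finset.sum_le_sum fun g _ => ?_
  rw [← add_mul, Finsupp.add_apply]
  exact mul_le_mul_of_nonneg_right (norm_add_le _ _) (w.pos g).le

lemma wn_zero (w : Weight G) : wn w 0 = 0 := by simp [wn]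

lemma wn_neg (w : Weight G) (a : G →₀ ℂ) : wn w (-a) = wn w a := by
  rw [wn_of_subset w (-a) a.support (by rw [Finsupp.support_neg]), wn_of_subset w a _ le_rfl]
  refine Finset.sum_congr rfl fun g _ => by simp

lemma wn_eq_zero (w : Weight G) (a : G →₀ ℂ) (h : wn w a = 0) : a = 0 := by
  ext g
  by_cases hg : g ∈ a.support
  · have h1 := (Finset.sum_eq_zero_iff_of_nonneg (fun g _ => mul_nonneg (norm_nonneg (a g)) (w.pos g).le)).1 h g hg
    have h2 := (w.pos g).ne'
    simpa [h2] using h1
  · simpa using hg

lemma wn_sum {ι : Type*} (w : Weight G) (s : Finset ι) (f : ι → G →₀ ℂ) :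
    wn w (∑ i ∈ s, f i) ≤ ∑ i ∈ s, wn w (f i) := by
  classical
  induction s using Finset.induction_on with
  | empty => simp [wn_zero]
  | insert i s hi ih =>
    rw [Finset.sum_insert hi, Finset.sum_insert hi]
    exact (wn_add w _ _).trans (by linarith)

lemma wn_single (w : Weight G) (g : G) (z : ℂ) : wn w (Finsupp.single g z) = ‖z‖ * w.toFun g := by
  simp [wn]

lemma wn_smul (w : Weight G) (c : ℂ) (a : G →₀ ℂ) : wn w (c • a) = ‖c‖ * wn w a := by
  rw [wn_of_subset w (c • a) a.support Finsupp.support_smul, wn_of_subset w a _ le_rfl,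
    Finset.mul_sum]
  refine Finset.sum_congr rfl fun g _ => ?_
  rw [Finsupp.smul_apply, smul_eq_mul, norm_mul, mul_assoc]

lemma wn_mul (w : Weight G) (a b : MonoidAlgebra ℂ G) :
    wn w (a * b).coeff ≤ wn w a.coeff * wn w b.coeff := by
  have h1 : (a * b).coeff = ∑ g ∈ a.coeff.support, ∑ h ∈ b.coeff.support,
      Finsupp.single (g * h) (a.coeff g * b.coeff h) := by
    rw [MonoidAlgebra.mul_def]
    simp only [Finsupp.sum, MonoidAlgebra.coeff_sum, MonoidAlgebra.coeff_single]
  rw [h1, wn_of_subset w a.coeff _ le_rfl, wn_of_subset w b.coeff _ le_rfl, Finset.sum_mul]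
  refine (wn_sum w _ _).trans (Finset.sum_le_sum fun g _ => ?_)
  rw [Finset.mul_sum]
  refine (wn_sum w _ _).trans (Finset.sum_le_sum fun h _ => ?_)
  rw [wn_single, norm_mul]
  have := mul_le_mul_of_nonneg_left (w.mul_le g h) (mul_nonneg (norm_nonneg (a.coeff g)) (norm_nonneg (b.coeff h)))
  linarith

/-- the ring norm `‖a‖ = ∑ |a g| w(g)` on `ℂ[G]` -/
noncomputable def rn (w : Weight G) : RingNorm (FinAlg w) where
  toFun a := wn w (MonoidAlgebra.coeff a)
  map_zero' := wn_zero w
  add_le' _ _ := wn_add w _ _
  neg' _ := wn_neg w _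
  mul_le' a b := wn_mul w a b
  eq_zero_of_map_eq_zero' _ h := MonoidAlgebra.coeff_eq_zero.1 (wn_eq_zero w _ h)

noncomputable instance (w : Weight G) : NormedRing (FinAlg w) := (rn w).toNormedRing

lemma norm_def (w : Weight G) (a : FinAlg w) : ‖a‖ = wn w (MonoidAlgebra.coeff a) := rfl

noncomputable instance (w : Weight G) : NormedAlgebra ℂ (FinAlg w) where
  norm_smul_le c _ := le_of_eq (wn_smul w c _)

/-- **The Beurling algebra `ℓ¹(G, w)`**: the completion of the group algebra `ℂ[G]` (finitely
supported functions with convolution) in the norm `‖a‖ = ∑ |a g| w(g)`. -/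
abbrev L1w (w : Weight G) : Type u := UniformSpace.Completion (FinAlg w)

noncomputable instance (w : Weight G) : NormedAlgebra ℂ (L1w w) where
  norm_smul_le := norm_smul_le

/-- the identity map `ℂ[G] → ℂ[G]`, the target being normed -/
def toFin (w : Weight G) (a : MonoidAlgebra ℂ G) : FinAlg w := a

/-- the point mass at `g` -/
noncomputable def pm (w : Weight G) (g : G) : L1w w := (toFin w (MonoidAlgebra.single g 1) : L1w w)

/-- point masses -/
noncomputable def delta (w : Weight G) : G →* L1w w where
  toFun g := pm w g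
  map_one' := rfl
  map_mul' g h := by
    have h0 : (MonoidAlgebra.single (g * h) 1 : MonoidAlgebra ℂ G) =
      MonoidAlgebra.single g 1 * MonoidAlgebra.single h 1 := by simp
    have h1 : toFin w (MonoidAlgebra.single (g * h) 1) =
      toFin w (MonoidAlgebra.single g 1) * toFin w (MonoidAlgebra.single h 1) := h0
    unfold pm
    rw [← UniformSpace.Completion.coe_mul, h1]

/-- the embedding of the finitely supported functions as a linear map -/
noncomputable def emb (w : Weight G) : (G →₀ ℂ) →ₗ[ℂ] L1w w where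
  toFun c := (toFin w (MonoidAlgebra.ofCoeff c) : L1w w)
  map_add' a b := by
    rw [← UniformSpace.Completion.coe_add]
    rfl
  map_smul' a b := by
    rw [RingHom.id_apply, ← UniformSpace.Completion.coe_smul]
    rfl

lemma lc_delta (w : Weight G) : Finsupp.linearCombination ℂ (delta w) = emb w := by
  refine Finsupp.lhom_ext' fun g => LinearMap.ext_ring ?_
  simp only [LinearMap.comp_apply, Finsupp.lsingle_apply, Finsupp.linearCombination_single, one_smul]
  rfl

theorem isBeurling (w : Weight G) : IsBeurling w (L1w w) (delta w) where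
  norm_eq c := by
    rw [lc_delta]
    change ‖(toFin w (MonoidAlgebra.ofCoeff c) : L1w w)‖ = _
    rw [UniformSpace.Completion.norm_coe]
    rfl
  dense := by
    rw [lc_delta]
    have h : (emb w : (G →₀ ℂ) → L1w w) =
        ((↑) : FinAlg w → L1w w) ∘ (fun c : G →₀ ℂ => toFin w (MonoidAlgebra.ofCoeff c)) := rfl
    rw [h]
    refine UniformSpace.Completion.denseRange_coe.comp ?_ (UniformSpace.Completion.continuous_coe _)
    refine Function.Surjective.denseRange ?_
    intro a
    exact ⟨MonoidAlgebra.coeff a, rfl⟩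

/-- if the real model has a nilpotent element then `ℓ¹(G, w)''` is not semisimple -/
theorem wrapper [TopologicalSpace G] [DiscreteTopology G] (w : Weight G) (h : Beur.HasNil w.ker) :
    Ring.jacobson (Bidual (L1w w)) ≠ ⊥ := transfer (isBeurling w) h

/-- final statement of the project, given tasks A and B -/
theorem final (hA : Beur.TaskA.{u}) (hB : Beur.TaskB.{u}) :
    ∀ (G : Type u) [Group G] [Infinite G] (w : Weight G), Ring.jacobson (Bidual (L1w w)) ≠ ⊥ := by
  intro G _ _ w
  let _ : TopologicalSpace G := ⊥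
  have _ : DiscreteTopology G := ⟨rfl⟩
  refine wrapper w ?_
  rcases hA G w.ker with h | ⟨e, he⟩
  · exact h
  · exact hB G w.ker e he

/-- the same for every Banach algebra isometric to `ℓ¹(G, w)` -/
theorem final' (hA : Beur.TaskA.{u}) (hB : Beur.TaskB.{u}) :
    ∀ (G : Type u) [Group G] [Infinite G] (w : Weight G) (A : Type*) [NormedRing A]
      [NormedAlgebra ℂ A] (δ : G →* A), IsBeurling w A δ → Ring.jacobson (Bidual A) ≠ ⊥ := by
  intro G _ _ w A _ _ δ H
  let _ : TopologicalSpace G := ⊥
  have _ : DiscreteTopology G := ⟨rfl⟩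
  refine transfer H ?_
  rcases hA G w.ker with h | ⟨e, he⟩
  · exact h
  · exact hB G w.ker e he

end BeurW
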