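import Pool.Agent.H725R3.BeurN
import Pool.Agent.H434R3.Arens

set_option autoImplicit false

/-!
# Transfer to the second dual of helper434 (nonunital algebras)
-/

namespace BeurN

universe u v

open BeurW (Weight)

theorem transferNU {G : Type u} [Group G] [TopologicalSpace G] [DiscreteTopology G] (w : Weight G)
    {A : Type v} [NonUnitalNormedRing A] [NormedSpace ℂ A] [IsScalarTower ℂ A A]
    [SMulCommClass ℂ A A] (δ : G → A) (hmul : ∀ g h, δ (g * h) = δ g * δ h)
    (hnorm : ∀ c : G →₀ ℂ, ‖Finsupp.linearCombination ℂ δ c‖ = c.sum fun g z => ‖z‖ * w.toFun g)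
    (hdense : DenseRange (Finsupp.linearCombination ℂ δ)) (hK : Beur.HasNil w.ker) :
    ∃ n : H434R3.Arens.Bidual A, n ≠ 0 ∧ ∀ Φ : H434R3.Arens.Bidual A, n * Φ * n = 0 := by
  have H : IsBeurling w A δ :=
    { mul := fun g h => (hmul g h).symm
      norm_eq := hnorm
      dense_span := by
        rw [← Finsupp.range_linearCombination]
        exact hdense }
  obtain ⟨n, hn0, hn⟩ := transfer H hK
  have key : ∀ N : H434R3.Arens.Bidual A, (∀ Φ : H434R3.Arens.Bidual A, N * (Φ * N) = 0) →
      ∀ Φ : H434R3.Arens.Bidual A, N * Φ * N = 0 := fun N h Φ => by rw [mul_assoc]; exact h Φ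
  exact ⟨n, hn0, key n fun Φ => hn Φ⟩

end BeurN
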