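import Pool.Agent.H934R3.NP.Stmts

set_option autoImplicit false

open MeasureTheory Set Filter Topology Pool.Agent.H934R3.NP
open scoped ENNReal NNReal

namespace Pool.Agent.H725R3.NPC4

/-- weight -/
noncomputable def wt (s : ℝ) : ℝ :=
  (1 / (4 * Real.pi * Real.sqrt Real.pi)) * s ^ (-(1 / 2) : ℝ) * (4 * s / Real.pi) ^ (3 / 2 : ℝ)

/-- Gaussian kernel -/
noncomputable def kk (p : ℝ × E) (x : E) : ℝ :=
  Real.sqrt (wt p.1) * Real.exp (-(2 * p.1) * ‖x - p.2‖ ^ 2)

lemma wt_pos {s : ℝ} (hs : 0 < s) : 0 < wt s := by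
  unfold wt
  have := Real.pi_pos
  positivity

lemma kk_nonneg (p : ℝ × E) (x : E) : 0 ≤ kk p x := by unfold kk; positivity

lemma kk_mul {s : ℝ} (hs : 0 < s) (x y z : E) : kk (s, z) x * kk (s, z) y =
    wt s * Real.exp (-(‖x - y‖ ^ 2 * s)) * Real.exp (-(4 * s) * ‖z - (1 / 2 : ℝ) • (x + y)‖ ^ 2) := by
  unfold kk
  have h1 : Real.sqrt (wt s) * Real.sqrt (wt s) = wt s := Real.mul_self_sqrt (wt_pos hs).le
  have h2 : -(2 * s) * ‖x - z‖ ^ 2 + -(2 * s) * ‖y - z‖ ^ 2 =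
      -(‖x - y‖ ^ 2 * s) + -(4 * s) * ‖z - (1 / 2 : ℝ) • (x + y)‖ ^ 2 := by
    have e1 : ‖x - z‖ ^ 2 = ‖x‖ ^ 2 - 2 * inner ℝ x z + ‖z‖ ^ 2 := norm_sub_sq_real x z
    have e2 : ‖y - z‖ ^ 2 = ‖y‖ ^ 2 - 2 * inner ℝ y z + ‖z‖ ^ 2 := norm_sub_sq_real y z
    have e3 : ‖x - y‖ ^ 2 = ‖x‖ ^ 2 - 2 * inner ℝ x y + ‖y‖ ^ 2 := norm_sub_sq_real x y
    have e4 : ‖z - (1 / 2 : ℝ) • (x + y)‖ ^ 2 = ‖z‖ ^ 2 - 2 * inner ℝ z ((1 / 2 : ℝ) • (x + y)) +
        ‖(1 / 2 : ℝ) • (x + y)‖ ^ 2 := norm_sub_sq_real _ _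
    have e5 : inner ℝ z ((1 / 2 : ℝ) • (x + y)) = (1 / 2) * (inner ℝ x z + inner ℝ y z) := by
      rw [real_inner_smul_right, inner_add_right, real_inner_comm z x, real_inner_comm z y]
    have e6 : ‖(1 / 2 : ℝ) • (x + y)‖ ^ 2 = (1 / 4) * (‖x‖ ^ 2 + 2 * inner ℝ x y + ‖y‖ ^ 2) := by
      rw [norm_smul, mul_pow, norm_add_sq_real]
      norm_num
    rw [e1, e2, e3, e4, e5, e6]
    ring
  calc Real.sqrt (wt s) * Real.exp (-(2 * s) * ‖x - z‖ ^ 2) *
        (Real.sqrt (wt s) * Real.exp (-(2 * s) * ‖y - z‖ ^ 2))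
      = (Real.sqrt (wt s) * Real.sqrt (wt s)) *
        (Real.exp (-(2 * s) * ‖x - z‖ ^ 2) * Real.exp (-(2 * s) * ‖y - z‖ ^ 2)) := by ring
    _ = wt s * Real.exp (-(‖x - y‖ ^ 2 * s) + -(4 * s) * ‖z - (1 / 2 : ℝ) • (x + y)‖ ^ 2) := by
        rw [h1, ← Real.exp_add, h2]
    _ = _ := by rw [Real.exp_add]; ring

lemma gauss {s : ℝ} (hs : 0 < s) (m : E) :
    ∫ z : E, Real.exp (-(4 * s) * ‖z - m‖ ^ 2) = (Real.pi / (4 * s)) ^ (3 / 2 : ℝ) := by
  have h := GaussianFourier.integral_rexp_neg_mul_sq_norm (V := E) (b := 4 * s) (by positivity)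
  rw [integral_sub_right_eq_self (fun z : E => Real.exp (-(4 * s) * ‖z‖ ^ 2)) m, h]
  congr 1
  simp

lemma wt_gauss {s : ℝ} (hs : 0 < s) : wt s * (Real.pi / (4 * s)) ^ (3 / 2 : ℝ) =
    (1 / (4 * Real.pi * Real.sqrt Real.pi)) * s ^ (-(1 / 2) : ℝ) := by
  unfold wt
  have hp := Real.pi_pos
  rw [mul_assoc, ← Real.mul_rpow (by positivity) (by positivity)]
  have : 4 * s / Real.pi * (Real.pi / (4 * s)) = 1 := by field_simp
  rw [this, Real.one_rpow, mul_one]

lemma inner_z {s : ℝ} (hs : 0 < s) (x y : E) :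
    ∫⁻ z : E, ENNReal.ofReal (kk (s, z) x * kk (s, z) y) =
      ENNReal.ofReal ((1 / (4 * Real.pi * Real.sqrt Real.pi)) *
        (s ^ ((1 / 2 : ℝ) - 1) * Real.exp (-(‖x - y‖ ^ 2 * s)))) := by
  have h1 : ∫ z : E, kk (s, z) x * kk (s, z) y = (1 / (4 * Real.pi * Real.sqrt Real.pi)) *
        (s ^ ((1 / 2 : ℝ) - 1) * Real.exp (-(‖x - y‖ ^ 2 * s))) := by
    simp_rw [kk_mul hs]
    rw [integral_const_mul, gauss hs]
    calc wt s * Real.exp (-(‖x - y‖ ^ 2 * s)) * (Real.pi / (4 * s)) ^ (3 / 2 : ℝ)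
        = (wt s * (Real.pi / (4 * s)) ^ (3 / 2 : ℝ)) * Real.exp (-(‖x - y‖ ^ 2 * s)) := by ring
      _ = _ := by
        rw [wt_gauss hs]
        norm_num
        ring
  have h2 : Integrable (fun z : E => kk (s, z) x * kk (s, z) y) := by
    apply Integrable.of_integral_ne_zero
    rw [h1]
    have := Real.pi_pos
    positivity
  rw [← ofReal_integral_eq_lintegral_ofReal h2
    (Eventually.of_forall fun z => mul_nonneg (kk_nonneg _ _) (kk_nonneg _ _)), h1]

lemma outer_s {x y : E} (hxy : x ≠ y) :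
    ∫⁻ s in Ioi (0 : ℝ), ENNReal.ofReal ((1 / (4 * Real.pi * Real.sqrt Real.pi)) *
        (s ^ ((1 / 2 : ℝ) - 1) * Real.exp (-(‖x - y‖ ^ 2 * s)))) = ENNReal.ofReal (G (x - y)) := by
  have hn : 0 < ‖x - y‖ := norm_pos_iff.mpr (sub_ne_zero.mpr hxy)
  have hp := Real.pi_pos
  have h1 : ∫ s in Ioi (0 : ℝ), (1 / (4 * Real.pi * Real.sqrt Real.pi)) *
        (s ^ ((1 / 2 : ℝ) - 1) * Real.exp (-(‖x - y‖ ^ 2 * s))) = G (x - y) := by
    rw [integral_const_mul, Real.integral_rpow_mul_exp_neg_mul_Ioi (by norm_num) (by positivity),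
      Real.Gamma_one_half_eq]
    unfold G
    rw [← Real.sqrt_eq_rpow, Real.sqrt_div zero_le_one, Real.sqrt_one, Real.sqrt_sq hn.le]
    have : Real.sqrt Real.pi ≠ 0 := (Real.sqrt_pos.mpr hp).ne'
    field_simp
  have h2 : IntegrableOn (fun s : ℝ => (1 / (4 * Real.pi * Real.sqrt Real.pi)) *
        (s ^ ((1 / 2 : ℝ) - 1) * Real.exp (-(‖x - y‖ ^ 2 * s)))) (Ioi 0) := by
    apply Integrable.of_integral_ne_zero
    rw [h1]
    unfold G
    positivity
  rw [← ofReal_integral_eq_lintegral_ofReal h2 ?_, h1]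
  filter_upwards [ae_restrict_mem measurableSet_Ioi] with s hs
  have : 0 < s := hs
  positivity

/-- the parameter measure -/
noncomputable def nuP : Measure (ℝ × E) := (volume.restrict (Ioi (0 : ℝ))).prod volume

lemma kk_meas : Measurable (fun q : (ℝ × E) × E => kk q.1 q.2) := by
  unfold kk wt
  fun_prop

lemma ker {x y : E} (hxy : x ≠ y) :
    ∫⁻ p, ENNReal.ofReal (kk p x * kk p y) ∂nuP = ENNReal.ofReal (G (x - y)) := by
  unfold nuP
  have hm : Measurable (fun p : ℝ × E => ENNReal.ofReal (kk p x * kk p y)) := by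
    apply Measurable.ennreal_ofReal
    exact (kk_meas.comp (measurable_id.prodMk measurable_const)).mul
      (kk_meas.comp (measurable_id.prodMk measurable_const))
  rw [lintegral_prod _ hm.aemeasurable, ← outer_s hxy]
  refine lintegral_congr_ae ?_
  filter_upwards [ae_restrict_mem measurableSet_Ioi] with s hs
  exact inner_z hs x y


lemma ker' {x y : E} (hxy : x ≠ y) :
    ∫ p, kk p x * kk p y ∂nuP = G (x - y) := by
  rw [integral_eq_lintegral_of_nonneg_ae
    (Eventually.of_forall fun p => mul_nonneg (kk_nonneg _ _) (kk_nonneg _ _)) ?_, ker hxy,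
    ENNReal.toReal_ofReal (by unfold G; positivity)]
  exact ((kk_meas.comp (measurable_id.prodMk measurable_const)).mul
      (kk_meas.comp (measurable_id.prodMk measurable_const))).aestronglyMeasurable

lemma diag_null (μ : Measure E) [IsFiniteMeasure μ] (hns : ∀ x, μ {x} = 0) :
    ∀ᵐ q ∂(μ.prod μ), q.1 ≠ q.2 := by
  have hm : MeasurableSet {q : E × E | q.1 = q.2} := measurableSet_eq_fun measurable_fst measurable_snd
  rw [ae_iff]
  simp only [not_not, ne_eq]
  rw [Measure.measure_prod_null hm]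
  refine Eventually.of_forall fun x => ?_
  have : (Prod.mk x ⁻¹' {q : E × E | q.1 = q.2}) = {x} := by
    ext y
    simp [eq_comm]
  simp only [this, hns x, Pi.zero_apply]

lemma G_meas : Measurable (fun q : E × E => G (q.1 - q.2)) := by
  unfold G
  fun_prop

lemma G_symm (x y : E) : G (x - y) = G (y - x) := by
  unfold G
  rw [norm_sub_rev]

/-- Schur bound -/
lemma schur (μ : Measure E) [IsFiniteMeasure μ] (C : ℝ)
    (hC : ∀ x : E, ∫⁻ y, ENNReal.ofReal (G (x - y)) ∂μ ≤ ENNReal.ofReal C)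
    (f : E → ℝ) (hf : Measurable f) (hf2 : MemLp f 2 μ) :
    ∫⁻ q, ENNReal.ofReal (G (q.1 - q.2)) * ENNReal.ofReal |f q.1 * f q.2| ∂(μ.prod μ) < ∞ := by
  have hA : ∫⁻ x, ENNReal.ofReal (f x ^ 2) ∂μ < ∞ := hf2.integrable_sq.lintegral_lt_top
  have hb : ∀ q : E × E, ENNReal.ofReal (G (q.1 - q.2)) * ENNReal.ofReal |f q.1 * f q.2| ≤
      ENNReal.ofReal (G (q.1 - q.2)) * ENNReal.ofReal (f q.1 ^ 2) +
      ENNReal.ofReal (G (q.1 - q.2)) * ENNReal.ofReal (f q.2 ^ 2) := by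
    intro q
    rw [← mul_add, ← ENNReal.ofReal_add (sq_nonneg _) (sq_nonneg _)]
    gcongr
    rw [abs_mul]
    nlinarith [sq_nonneg (|f q.1| - |f q.2|), sq_abs (f q.1), sq_abs (f q.2),
      sq_nonneg (f q.1), sq_nonneg (f q.2)]
  refine lt_of_le_of_lt (lintegral_mono hb) ?_
  have hm1 : Measurable (fun q : E × E => ENNReal.ofReal (G (q.1 - q.2)) * ENNReal.ofReal (f q.1 ^ 2)) :=
    G_meas.ennreal_ofReal.mul ((hf.comp measurable_fst).pow_const 2).ennreal_ofReal
  have hm2 : Measurable (fun q : E × E => ENNReal.ofReal (G (q.1 - q.2)) * ENNReal.ofReal (f q.2 ^ 2)) :=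
    G_meas.ennreal_ofReal.mul ((hf.comp measurable_snd).pow_const 2).ennreal_ofReal
  rw [lintegral_add_left hm1]
  have h1 : ∫⁻ q, ENNReal.ofReal (G (q.1 - q.2)) * ENNReal.ofReal (f q.1 ^ 2) ∂(μ.prod μ) ≤
      ENNReal.ofReal C * ∫⁻ x, ENNReal.ofReal (f x ^ 2) ∂μ := by
    rw [lintegral_prod _ hm1.aemeasurable, ← lintegral_const_mul _ (hf.pow_const 2).ennreal_ofReal]
    refine lintegral_mono fun x => ?_
    have hg : Measurable (fun y : E => G (x - y)) := by unfold G; fun_prop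
    simp only
    rw [lintegral_mul_const _ hg.ennreal_ofReal]
    gcongr
    exact hC x
  have h2 : ∫⁻ q, ENNReal.ofReal (G (q.1 - q.2)) * ENNReal.ofReal (f q.2 ^ 2) ∂(μ.prod μ) ≤
      ENNReal.ofReal C * ∫⁻ x, ENNReal.ofReal (f x ^ 2) ∂μ := by
    rw [lintegral_prod_symm _ hm2.aemeasurable, ← lintegral_const_mul _ (hf.pow_const 2).ennreal_ofReal]
    refine lintegral_mono fun x => ?_
    have hg : Measurable (fun y : E => G (y - x)) := by unfold G; fun_prop
    simp only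
    rw [lintegral_mul_const _ hg.ennreal_ofReal]
    gcongr
    calc ∫⁻ y, ENNReal.ofReal (G (y - x)) ∂μ = ∫⁻ y, ENNReal.ofReal (G (x - y)) ∂μ :=
          lintegral_congr fun y => by rw [G_symm]
      _ ≤ _ := hC x
  refine lt_of_le_of_lt (add_le_add h1 h2) ?_
  exact ENNReal.add_lt_top.mpr ⟨ENNReal.mul_lt_top ENNReal.ofReal_lt_top hA,
    ENNReal.mul_lt_top ENNReal.ofReal_lt_top hA⟩

instance : SigmaFinite nuP := by unfold nuP; infer_instance

lemma F_int (μ : Measure E) [IsFiniteMeasure μ] (hns : ∀ x, μ {x} = 0) (C : ℝ)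
    (hC : ∀ x : E, ∫⁻ y, ENNReal.ofReal (G (x - y)) ∂μ ≤ ENNReal.ofReal C)
    (f : E → ℝ) (hf : Measurable f) (hf2 : MemLp f 2 μ) :
    Integrable (fun r : (E × E) × (ℝ × E) => (kk r.2 r.1.1 * f r.1.1) * (kk r.2 r.1.2 * f r.1.2))
      ((μ.prod μ).prod nuP) := by
  have hk1 : Measurable (fun r : (E × E) × (ℝ × E) => kk r.2 r.1.1) :=
    kk_meas.comp (measurable_snd.prodMk (measurable_fst.comp measurable_fst))
  have hk2 : Measurable (fun r : (E × E) × (ℝ × E) => kk r.2 r.1.2) :=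
    kk_meas.comp (measurable_snd.prodMk (measurable_snd.comp measurable_fst))
  have hf1 : Measurable (fun r : (E × E) × (ℝ × E) => f r.1.1) :=
    hf.comp (measurable_fst.comp measurable_fst)
  have hf2' : Measurable (fun r : (E × E) × (ℝ × E) => f r.1.2) :=
    hf.comp (measurable_snd.comp measurable_fst)
  have hM : Measurable (fun r : (E × E) × (ℝ × E) =>
      (kk r.2 r.1.1 * f r.1.1) * (kk r.2 r.1.2 * f r.1.2)) := (hk1.mul hf1).mul (hk2.mul hf2')
  refine ⟨hM.aestronglyMeasurable, ?_⟩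
  unfold HasFiniteIntegral
  rw [lintegral_prod _ hM.enorm.aemeasurable]
  refine lt_of_le_of_lt (le_of_eq ?_) (schur μ C hC f hf hf2)
  refine lintegral_congr_ae ?_
  filter_upwards [diag_null μ hns] with q hq
  have : ∀ p : ℝ × E, ‖(kk p q.1 * f q.1) * (kk p q.2 * f q.2)‖ₑ =
      ENNReal.ofReal (kk p q.1 * kk p q.2) * ENNReal.ofReal |f q.1 * f q.2| := by
    intro p
    rw [← ENNReal.ofReal_mul (mul_nonneg (kk_nonneg _ _) (kk_nonneg _ _)), Real.enorm_eq_ofReal_abs]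
    congr 1
    rw [show (kk p q.1 * f q.1) * (kk p q.2 * f q.2) = (kk p q.1 * kk p q.2) * (f q.1 * f q.2) by ring,
      abs_mul, abs_of_nonneg (mul_nonneg (kk_nonneg _ _) (kk_nonneg _ _))]
  simp_rw [this]
  rw [lintegral_mul_const _ ?_, ker hq]
  exact ((kk_meas.comp (measurable_id.prodMk measurable_const)).mul
      (kk_meas.comp (measurable_id.prodMk measurable_const))).ennreal_ofReal

/-- the transform -/
noncomputable def II (μ : Measure E) (f : E → ℝ) (p : ℝ × E) : ℝ := ∫ x, kk p x * f x ∂μ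

lemma II_sq (μ : Measure E) [IsFiniteMeasure μ] (f : E → ℝ) (p : ℝ × E) :
    ∫ q, (kk p q.1 * f q.1) * (kk p q.2 * f q.2) ∂(μ.prod μ) = II μ f p ^ 2 := by
  rw [integral_prod_mul (fun x => kk p x * f x) (fun x => kk p x * f x), sq]
  rfl

lemma II_sq_int (μ : Measure E) [IsFiniteMeasure μ] (hns : ∀ x, μ {x} = 0) (C : ℝ)
    (hC : ∀ x : E, ∫⁻ y, ENNReal.ofReal (G (x - y)) ∂μ ≤ ENNReal.ofReal C)
    (f : E → ℝ) (hf : Measurable f) (hf2 : MemLp f 2 μ) :
    Integrable (fun p => II μ f p ^ 2) nuP := by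
  have h := (F_int μ hns C hC f hf hf2).integral_prod_right
  simpa only [II_sq] using h

lemma energy (μ : Measure E) [IsFiniteMeasure μ] (hns : ∀ x, μ {x} = 0) (C : ℝ)
    (hC : ∀ x : E, ∫⁻ y, ENNReal.ofReal (G (x - y)) ∂μ ≤ ENNReal.ofReal C)
    (f : E → ℝ) (hf : Measurable f) (hf2 : MemLp f 2 μ) :
    ∫ x, ∫ y, G (x - y) * (f x * f y) ∂μ ∂μ = ∫ p, II μ f p ^ 2 ∂nuP := by
  have hF := F_int μ hns C hC f hf hf2
  have h1 : ∀ᵐ q ∂(μ.prod μ), ∫ p, (kk p q.1 * f q.1) * (kk p q.2 * f q.2) ∂nuP =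
      G (q.1 - q.2) * (f q.1 * f q.2) := by
    filter_upwards [diag_null μ hns] with q hq
    rw [← ker' hq, ← integral_mul_const]
    refine integral_congr_ae (Eventually.of_forall fun p => ?_)
    simp only
    ring
  have h2 : Integrable (fun q : E × E => G (q.1 - q.2) * (f q.1 * f q.2)) (μ.prod μ) :=
    hF.integral_prod_left.congr h1
  have h3 := integral_prod _ h2
  simp only at h3
  rw [← h3, ← integral_congr_ae h1]
  have h4 := integral_integral_swap (μ := μ.prod μ) (ν := nuP)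
    (f := fun (q : E × E) (p : ℝ × E) => (kk p q.1 * f q.1) * (kk p q.2 * f q.2)) hF
  rw [h4]
  exact integral_congr_ae (Eventually.of_forall fun p => II_sq μ f p)

lemma step3 (μ : Measure E) [IsFiniteMeasure μ] (hns : ∀ x, μ {x} = 0) (C : ℝ)
    (hC : ∀ x : E, ∫⁻ y, ENNReal.ofReal (G (x - y)) ∂μ ≤ ENNReal.ofReal C)
    (f : E → ℝ) (hf : Measurable f) (hf2 : MemLp f 2 μ)
    (h0 : ∫ p, II μ f p ^ 2 ∂nuP = 0) :
    ∃ s : ℝ, 0 < s ∧ ∀ w : E, ∫ x, Real.exp (inner ℝ x w) * (Real.exp (-(2 * s) * ‖x‖ ^ 2) * f x) ∂μ = 0 := by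
  have h1 : ∀ᵐ p ∂nuP, II μ f p ^ 2 = 0 :=
    (integral_eq_zero_iff_of_nonneg (fun p => sq_nonneg _) (II_sq_int μ hns C hC f hf hf2)).mp h0
  have h2 : ∀ᵐ s ∂(volume.restrict (Ioi (0 : ℝ))), ∀ᵐ z : E, II μ f (s, z) ^ 2 = 0 :=
    Measure.ae_ae_of_ae_prod h1
  have : (ae (volume.restrict (Ioi (0 : ℝ)))).NeBot := by
    rw [ae_neBot]
    intro h
    have := Measure.restrict_eq_zero.mp h
    simp at this
  obtain ⟨s, hs, hs2⟩ := ((ae_restrict_mem measurableSet_Ioi).and h2).exists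
  have hs0 : (0 : ℝ) < s := hs
  have hfi : Integrable f μ := hf2.integrable one_le_two
  refine ⟨s, hs0, ?_⟩
  have h3 : (fun z : E => ∫ x, Real.exp (-(2 * s) * ‖x - z‖ ^ 2) * f x ∂μ) =ᵐ[volume] fun _ => (0 : ℝ) := by
    filter_upwards [hs2] with z hz
    have hz' : II μ f (s, z) = 0 := by simpa using hz
    unfold II kk at hz'
    simp only [mul_assoc] at hz'
    rw [integral_const_mul] at hz'
    have hw : Real.sqrt (wt s) ≠ 0 := (Real.sqrt_pos.mpr (wt_pos hs0)).ne'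
    simpa only [mul_assoc] using (mul_eq_zero.mp hz').resolve_left hw
  have h4 : Continuous (fun z : E => ∫ x, Real.exp (-(2 * s) * ‖x - z‖ ^ 2) * f x ∂μ) := by
    refine continuous_of_dominated (bound := fun x => |f x|) ?_ ?_ hfi.abs ?_
    · intro z
      exact (Measurable.aestronglyMeasurable (by fun_prop))
    · intro z
      refine Eventually.of_forall fun x => ?_
      rw [Real.norm_eq_abs, abs_mul, Real.abs_exp]
      have : Real.exp (-(2 * s) * ‖x - z‖ ^ 2) ≤ 1 := by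
        rw [Real.exp_le_one_iff]
        have := mul_nonneg hs0.le (sq_nonneg ‖x - z‖)
        linarith
      calc _ ≤ 1 * |f x| := by gcongr
        _ = _ := one_mul _
    · refine Eventually.of_forall fun x => ?_
      fun_prop
  have h5 := (Continuous.ae_eq_iff_eq volume h4 continuous_const).mp h3
  intro w
  have h6 := congrFun h5 ((1 / (4 * s)) • w)
  have h7 : ∀ x : E, Real.exp (-(2 * s) * ‖x - (1 / (4 * s)) • w‖ ^ 2) * f x =
      Real.exp (-(2 * s) * ‖(1 / (4 * s)) • w‖ ^ 2) *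
      (Real.exp (inner ℝ x w) * (Real.exp (-(2 * s) * ‖x‖ ^ 2) * f x)) := by
    intro x
    rw [← mul_assoc, ← mul_assoc, ← Real.exp_add, ← Real.exp_add, norm_sub_sq_real,
      real_inner_smul_right]
    congr 2
    field_simp
    ring
  simp_rw [h7] at h6
  rw [integral_const_mul] at h6
  exact (mul_eq_zero.mp h6).resolve_left (Real.exp_pos _).ne'

/-- exponentials on `K` -/
noncomputable def ex (K : Set E) (w : E) : C(K, ℝ) := ⟨fun x => Real.exp (inner ℝ (x : E) w), by fun_prop⟩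

lemma closure_ex (K : Set E) {a : C(K, ℝ)} (ha : a ∈ Submonoid.closure (range (ex K))) :
    ∃ w, a = ex K w := by
  induction ha using Submonoid.closure_induction with
  | mem x hx => obtain ⟨w, rfl⟩ := hx; exact ⟨w, rfl⟩
  | one => exact ⟨0, by ext x; simp [ex]⟩
  | mul x y _ _ hx hy =>
    obtain ⟨w, rfl⟩ := hx
    obtain ⟨v, rfl⟩ := hy
    refine ⟨w + v, ?_⟩
    ext x
    simp [ex, inner_add_right, Real.exp_add]

lemma sw (K : Set E) (hK : IsCompact K) (T : C(K, ℝ) →ₗ[ℝ] ℝ) (hT : Continuous T)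
    (h0 : ∀ w, T (ex K w) = 0) (f : C(K, ℝ)) : T f = 0 := by
  have : CompactSpace K := isCompact_iff_compactSpace.mp hK
  have hsep : (Algebra.adjoin ℝ (range (ex K))).SeparatesPoints := by
    intro x y hxy
    refine ⟨ex K ((x : E) - y), ⟨ex K ((x : E) - y), Algebra.subset_adjoin ⟨_, rfl⟩, rfl⟩, ?_⟩
    intro h
    simp only [ex, ContinuousMap.coe_mk, Real.exp_eq_exp] at h
    have h1 : inner ℝ ((x : E) - y) ((x : E) - y) = (0 : ℝ) := by
      rw [inner_sub_left, h, sub_self]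
    rw [inner_self_eq_zero, sub_eq_zero] at h1
    exact hxy (Subtype.ext h1)
  have htop := ContinuousMap.subalgebra_topologicalClosure_eq_top_of_separatesPoints _ hsep
  have hclosed : IsClosed {g : C(K, ℝ) | T g = 0} := isClosed_eq hT continuous_const
  have hsub : ((Algebra.adjoin ℝ (range (ex K)) : Subalgebra ℝ C(K, ℝ)) : Set C(K, ℝ)) ⊆
      {g : C(K, ℝ) | T g = 0} := by
    intro a ha
    have ha' : a ∈ Submodule.span ℝ (Submonoid.closure (range (ex K)) : Set C(K, ℝ)) := by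
      rw [← Algebra.adjoin_eq_span]
      exact ha
    have hle : Submodule.span ℝ (Submonoid.closure (range (ex K)) : Set C(K, ℝ)) ≤ LinearMap.ker T := by
      rw [Submodule.span_le]
      intro x hx
      obtain ⟨w, rfl⟩ := closure_ex K hx
      exact h0 w
    exact hle ha'
  have hf : f ∈ (Algebra.adjoin ℝ (range (ex K))).topologicalClosure := by rw [htop]; trivial
  exact (closure_minimal hsub hclosed) hf

/-- integration against `ψ` on `K` -/
noncomputable def TT (μ : Measure E) (K : Set E) (ψ : E → ℝ)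
    (hi : ∀ f : C(K, ℝ), Integrable (fun x : K => f x * ψ x) (μ.comap Subtype.val)) : C(K, ℝ) →ₗ[ℝ] ℝ where
  toFun f := ∫ x : K, f x * ψ x ∂(μ.comap Subtype.val)
  map_add' f g := by
    rw [← integral_add (hi f) (hi g)]
    simp [add_mul]
  map_smul' c f := by
    rw [RingHom.id_apply, smul_eq_mul, ← integral_const_mul]
    simp [mul_assoc]

lemma step4 (μ : Measure E) [IsFiniteMeasure μ] (K : Set E) (hK : IsCompact K) (hμK : μ Kᶜ = 0)
    (ψ : E → ℝ) (hψ : Integrable ψ μ)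
    (h0 : ∀ w : E, ∫ x, Real.exp (inner ℝ x w) * ψ x ∂μ = 0) : ψ =ᵐ[μ] 0 := by
  have : CompactSpace K := isCompact_iff_compactSpace.mp hK
  have hKm : MeasurableSet K := hK.measurableSet
  have hres : μ.restrict K = μ := Measure.restrict_eq_self_of_ae_mem (by
    rw [ae_iff]; exact hμK)
  have hψK : Integrable (fun x : K => ψ x) (μ.comap Subtype.val) := by
    have := (integrableOn_iff_comap_subtypeVal (μ := μ) (f := ψ) hKm).mp (by
      rw [IntegrableOn, hres]; exact hψ)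
    exact this
  have hbd : ∀ (f : C(K, ℝ)) (x : K), ‖f x * ψ x‖ ≤ ‖f‖ * ‖ψ x‖ := by
    intro f x
    rw [norm_mul]
    gcongr
    exact f.norm_coe_le_norm x
  have hi : ∀ f : C(K, ℝ), Integrable (fun x : K => f x * ψ x) (μ.comap Subtype.val) := by
    intro f
    refine Integrable.mono' (hψK.norm.const_mul ‖f‖) ?_ (Eventually.of_forall fun x => hbd f x)
    exact f.continuous.aestronglyMeasurable.mul hψK.aestronglyMeasurable
  have hTc : Continuous (TT μ K ψ hi) := by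
    refine AddMonoidHomClass.continuous_of_bound (TT μ K ψ hi)
      (∫ x : K, ‖ψ x‖ ∂(μ.comap Subtype.val)) fun f => ?_
    calc ‖∫ x : K, f x * ψ x ∂(μ.comap Subtype.val)‖
        ≤ ∫ x : K, ‖f x * ψ x‖ ∂(μ.comap Subtype.val) := norm_integral_le_integral_norm _
      _ ≤ ∫ x : K, ‖f‖ * ‖ψ x‖ ∂(μ.comap Subtype.val) :=
          integral_mono (hi f).norm (hψK.norm.const_mul ‖f‖) fun x => hbd f x
      _ = (∫ x : K, ‖ψ x‖ ∂(μ.comap Subtype.val)) * ‖f‖ := by
          rw [integral_const_mul, mul_comm]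
  have hconv : ∀ g : E → ℝ, ∫ x : K, g x * ψ x ∂(μ.comap Subtype.val) = ∫ x, g x * ψ x ∂μ := by
    intro g
    have := integral_subtype_comap (μ := μ) hKm (fun x => g x * ψ x)
    rw [this, hres]
  have hz := sw K hK (TT μ K ψ hi) hTc (fun w => by
    have := hconv (fun x => Real.exp (inner ℝ x w))
    rw [h0 w] at this
    exact this)
  refine ae_eq_zero_of_integral_contDiff_smul_eq_zero hψ.locallyIntegrable ?_
  intro g hg _
  have h1 := hz ⟨fun x : K => g x, hg.continuous.comp continuous_subtype_val⟩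
  have h2 := hconv g
  simp only [smul_eq_mul]
  rw [← h2]
  exact h1

theorem t : TaskC4 := by
  intro μ hfin hns K hK hμK C hC S hS φ hφ
  have := hfin
  let f : E → ℝ := fun x => φ x
  have hfm : Measurable f := (Lp.stronglyMeasurable φ).measurable
  have hf2 : MemLp f 2 μ := Lp.memLp φ
  have hin : (inner ℝ φ (S φ) : ℝ) = ∫ p, II μ f p ^ 2 ∂nuP := by
    rw [← energy μ hns C hC f hfm hf2, L2.inner_def]
    refine integral_congr_ae ?_
    filter_upwards [hS φ] with x hx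
    rw [hx, RCLike.inner_apply, conj_trivial, ← integral_mul_const]
    refine integral_congr_ae (Eventually.of_forall fun y => ?_)
    change _ = G (x - y) * (φ x * φ y)
    ring
  have hnn : 0 ≤ ∫ p, II μ f p ^ 2 ∂nuP := integral_nonneg fun p => sq_nonneg _
  rw [hin]
  refine lt_of_le_of_ne hnn fun h0 => hφ ?_
  obtain ⟨s, hs, hw⟩ := step3 μ hns C hC f hfm hf2 h0.symm
  have hfi : Integrable f μ := hf2.integrable one_le_two
  have hψi : Integrable (fun x => Real.exp (-(2 * s) * ‖x‖ ^ 2) * f x) μ := by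
    refine Integrable.mono' hfi.norm (Measurable.aestronglyMeasurable (by fun_prop))
      (Eventually.of_forall fun x => ?_)
    rw [norm_mul, Real.norm_eq_abs, Real.abs_exp]
    have : Real.exp (-(2 * s) * ‖x‖ ^ 2) ≤ 1 := by
      rw [Real.exp_le_one_iff]
      have := mul_nonneg hs.le (sq_nonneg ‖x‖)
      linarith
    calc _ ≤ 1 * ‖f x‖ := by gcongr
      _ = _ := one_mul _
  have h4 := step4 μ K hK hμK _ hψi hw
  rw [Lp.eq_zero_iff_ae_eq_zero]
  filter_upwards [h4] with x hx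
  simpa using hx

end Pool.Agent.H725R3.NPC4
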