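import Pool.Agent.H102R3.SKS

set_option autoImplicit false
open MeasureTheory ProbabilityTheory Set Pool.H102.SK

namespace Pool.Agent.H725R3.SKL

section basic
variable {ι V : Type} [Fintype ι] [Fintype V] [Nonempty V]

lemma Zf_pos (a : V → ι → ℝ) (d : V → ℝ) (x : ι → ℝ) : 0 < Zf a d x :=
  Finset.sum_pos (fun _ _ => Real.exp_pos _) Finset.univ_nonempty

lemma pf_pos (a : V → ι → ℝ) (d : V → ℝ) (x : ι → ℝ) (v : V) : 0 < pf a d x v :=
  div_pos (Real.exp_pos _) (Zf_pos a d x)

lemma pf_sum (a : V → ι → ℝ) (d : V → ℝ) (x : ι → ℝ) : ∑ v, pf a d x v = 1 := by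
  unfold pf
  rw [← Finset.sum_div]
  exact div_self (Zf_pos a d x).ne'

lemma convex_grad (a : V → ι → ℝ) (d : V → ℝ) (x y : ι → ℝ) :
    Ff a d x + ∑ i, mf a d x i * (y i - x i) ≤ Ff a d y := by
  set M : ℝ := ∑ i, mf a d x i * (y i - x i) with hM
  have hM2 : M = ∑ v, pf a d x v * ∑ i, a v i * (y i - x i) := by
    rw [hM]
    unfold mf
    simp_rw [Finset.sum_mul, Finset.mul_sum]
    rw [Finset.sum_comm]
    refine Finset.sum_congr rfl fun v _ => Finset.sum_congr rfl fun i _ => by ring
  have h1 : Zf a d y = Zf a d x * ∑ v, pf a d x v * Real.exp (∑ i, a v i * (y i - x i)) := by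
    rw [Finset.mul_sum]
    change ∑ v, Real.exp (d v + ∑ i, a v i * y i) = _
    refine Finset.sum_congr rfl fun v _ => ?_
    unfold pf
    rw [← mul_assoc, mul_div_cancel₀ _ (Zf_pos a d x).ne', ← Real.exp_add]
    congr 1
    rw [add_assoc, ← Finset.sum_add_distrib]
    congr 1
    exact Finset.sum_congr rfl fun i _ => by ring
  have h2 : Real.exp M ≤ ∑ v, pf a d x v * Real.exp (∑ i, a v i * (y i - x i)) := by
    calc Real.exp M = ∑ v, pf a d x v * (Real.exp M * (1 + ((∑ i, a v i * (y i - x i)) - M))) := by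
          have e : ∀ v, pf a d x v * (Real.exp M * (1 + ((∑ i, a v i * (y i - x i)) - M))) =
              Real.exp M * pf a d x v + Real.exp M * (pf a d x v * ∑ i, a v i * (y i - x i)) -
              Real.exp M * M * pf a d x v := fun v => by ring
          simp_rw [e]
          rw [Finset.sum_sub_distrib, Finset.sum_add_distrib, ← Finset.mul_sum, ← Finset.mul_sum,
            ← Finset.mul_sum, pf_sum, ← hM2]
          ring
      _ ≤ _ := by
          refine Finset.sum_le_sum fun v _ => ?_
          refine mul_le_mul_of_nonneg_left ?_ (pf_pos a d x v).le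
          have := Real.add_one_le_exp ((∑ i, a v i * (y i - x i)) - M)
          calc Real.exp M * (1 + ((∑ i, a v i * (y i - x i)) - M)) ≤
                Real.exp M * Real.exp ((∑ i, a v i * (y i - x i)) - M) := by
                gcongr; linarith
            _ = _ := by rw [← Real.exp_add]; congr 1; ring
  unfold Ff
  rw [h1, Real.log_mul (Zf_pos a d x).ne' (ne_of_gt (lt_of_lt_of_le (Real.exp_pos _) h2))]
  have := Real.log_le_log (Real.exp_pos _) h2
  rw [Real.log_exp] at this
  linarith

lemma mf_sq (a : V → ι → ℝ) (d : V → ℝ) (L : ℝ) (hL : ∀ v, ∑ i, a v i ^ 2 ≤ L) (x : ι → ℝ) :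
    ∑ i, mf a d x i ^ 2 ≤ L := by
  have h1 : ∀ i, mf a d x i ^ 2 ≤ ∑ v, pf a d x v * a v i ^ 2 := by
    intro i
    have := (Even.convexOn_pow (n := 2) (by norm_num)).map_sum_le (𝕜 := ℝ) (t := Finset.univ)
      (w := fun v => pf a d x v) (p := fun v => a v i)
      (fun v _ => (pf_pos a d x v).le) (pf_sum a d x) (fun v _ => Set.mem_univ _)
    simpa [mf, smul_eq_mul] using this
  calc ∑ i, mf a d x i ^ 2 ≤ ∑ i, ∑ v, pf a d x v * a v i ^ 2 := Finset.sum_le_sum fun i _ => h1 i
    _ = ∑ v, pf a d x v * ∑ i, a v i ^ 2 := by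
        rw [Finset.sum_comm]
        exact Finset.sum_congr rfl fun v _ => by rw [Finset.mul_sum]
    _ ≤ ∑ v, pf a d x v * L := Finset.sum_le_sum fun v _ =>
        mul_le_mul_of_nonneg_left (hL v) (pf_pos a d x v).le
    _ = L := by rw [← Finset.sum_mul, pf_sum, one_mul]

lemma mf_abs (a : V → ι → ℝ) (d : V → ℝ) (L : ℝ) (hL : ∀ v, ∑ i, a v i ^ 2 ≤ L) (x : ι → ℝ) (i : ι) :
    |mf a d x i| ≤ Real.sqrt L := by
  apply Real.abs_le_sqrt
  exact (Finset.single_le_sum (f := fun i => mf a d x i ^ 2) (fun j _ => sq_nonneg _)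
    (Finset.mem_univ i)).trans (mf_sq a d L hL x)

lemma Ff_cont (a : V → ι → ℝ) (d : V → ℝ) : Continuous (Ff a d) := by
  unfold Ff
  refine Continuous.log ?_ fun x => (Zf_pos a d x).ne'
  unfold Zf
  fun_prop

lemma mf_cont (a : V → ι → ℝ) (d : V → ℝ) : Continuous (mf a d) := by
  unfold mf pf
  refine continuous_pi fun i => ?_
  refine continuous_finsetSum _ fun v _ => ?_
  refine Continuous.mul (Continuous.div (by fun_prop) ?_ fun x => (Zf_pos a d x).ne') continuous_const
  unfold Zf
  fun_prop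

lemma Ff_abs (a : V → ι → ℝ) (d : V → ℝ) (L : ℝ) (hL : ∀ v, ∑ i, a v i ^ 2 ≤ L) (x : ι → ℝ) :
    |Ff a d x| ≤ |Ff a d 0| + Real.sqrt L * ∑ i, |x i| := by
  have h1 := convex_grad a d x 0
  have h2 := convex_grad a d 0 x
  have h3 : ∀ y : ι → ℝ, |∑ i, mf a d y i * x i| ≤ Real.sqrt L * ∑ i, |x i| := by
    intro y
    calc |∑ i, mf a d y i * x i| ≤ ∑ i, |mf a d y i * x i| := Finset.abs_sum_le_sum_abs _ _
      _ ≤ ∑ i, Real.sqrt L * |x i| := by
          refine Finset.sum_le_sum fun i _ => ?_
          rw [abs_mul]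
          exact mul_le_mul_of_nonneg_right (mf_abs a d L hL y i) (abs_nonneg _)
      _ = _ := by rw [Finset.mul_sum]
  have e1 : ∑ i, mf a d x i * ((0 : ι → ℝ) i - x i) = - ∑ i, mf a d x i * x i := by
    rw [← Finset.sum_neg_distrib]
    exact Finset.sum_congr rfl fun i _ => by simp
  have e2 : ∑ i, mf a d 0 i * (x i - (0 : ι → ℝ) i) = ∑ i, mf a d 0 i * x i :=
    Finset.sum_congr rfl fun i _ => by simp
  rw [e1] at h1
  rw [e2] at h2
  have h4 := abs_le.mp (h3 x)
  have h5 := abs_le.mp (h3 0)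
  have h6 := neg_abs_le (Ff a d 0)
  have h7 := le_abs_self (Ff a d 0)
  rw [abs_le]
  constructor <;> linarith [h4.1, h4.2, h5.1, h5.2]

end basic

section G
variable {ι : Type} [Fintype ι]

lemma int_abs (i : ι) : Integrable (fun x : ι → ℝ => |x i|) (G ι) := by
  have h : Integrable (fun t : ℝ => |t|) (gaussianReal 0 1) := by
    have := (memLp_id_gaussianReal (μ := 0) (v := 1) 1).integrable le_rfl
    exact this.abs
  exact (integrable_comp_eval (μ := fun _ : ι => gaussianReal 0 1) (i := i) h)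

lemma int_lin (g : (ι → ℝ) → ℝ) (hg : Measurable g) (A B : ℝ)
    (h : ∀ x, |g x| ≤ A + B * ∑ i, |x i|) : Integrable g (G ι) := by
  refine Integrable.mono' ((integrable_const A).add
    ((integrable_finsetSum Finset.univ fun i _ => int_abs i).const_mul B)) hg.aestronglyMeasurable
    (Filter.Eventually.of_forall fun x => ?_)
  simpa using h x

lemma int_bdd (g : (ι → ℝ) → ℝ) (hg : Measurable g) (A : ℝ)
    (h : ∀ x, |g x| ≤ A) : Integrable g (G ι) :=
  Integrable.mono' (integrable_const A) hg.aestronglyMeasurable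
    (Filter.Eventually.of_forall fun x => h x)

end G

section main
variable {ι V : Type} [Fintype ι] [Fintype V] [Nonempty V]

lemma mp_rot (hR : TRot) (c : ℝ) (hc0 : 0 ≤ c) (hc1 : c ≤ 1) :
    MeasurePreserving (fun p : (ι → ℝ) × (ι → ℝ) =>
      (fun i => c * p.1 i + Real.sqrt (1 - c ^ 2) * p.2 i : ι → ℝ)) ((G ι).prod (G ι)) (G ι) := by
  have h := hR ι (Real.arccos c)
  rw [Real.cos_arccos (by linarith) hc1, Real.sin_arccos] at h
  exact measurePreserving_fst.comp h

theorem tLower (hR : TRot) : TLower := by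
  intro ι V _ _ _ a L hL c l hc0 hc1 hl
  set s : ℝ := Real.sqrt (1 - c ^ 2) with hs
  have hs2 : s ^ 2 = 1 - c ^ 2 := Real.sq_sqrt (by nlinarith)
  have hs0 : 0 ≤ s := Real.sqrt_nonneg _
  have hL0 : 0 ≤ L := (Finset.sum_nonneg fun i _ => sq_nonneg _).trans (hL (Classical.arbitrary V))
  set d : V → ℝ := fun _ => 0 with hd
  set F : (ι → ℝ) → ℝ := Ff a d with hF
  set m : (ι → ℝ) → ι → ℝ := mf a d with hm
  have hFc : Continuous F := Ff_cont a d
  have hmc : Continuous m := mf_cont a d
  have hFm : Measurable F := hFc.measurable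
  have hmm : Measurable m := hmc.measurable
  have hm1 : ∀ i, Continuous fun x => m x i := fun i => (continuous_apply i).comp hmc
  have hgr : ∀ x y, F x + ∑ i, m x i * (y i - x i) ≤ F y := convex_grad a d
  have hsq : ∀ x, ∑ i, m x i ^ 2 ≤ L := mf_sq a d L hL
  have habs : ∀ x i, |m x i| ≤ Real.sqrt L := mf_abs a d L hL
  have mp := mp_rot (ι := ι) hR c hc0 hc1
  rw [← hs] at mp
  have hFi : Integrable F (G ι) := int_lin F hFm _ _ (Ff_abs a d L hL)
  have hFp : Integrable (fun p : (ι → ℝ) × (ι → ℝ) => F (fun i => c * p.1 i + s * p.2 i))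
      ((G ι).prod (G ι)) := (mp.integrable_comp hFm.aestronglyMeasurable).mpr hFi
  -- inner function
  set h : (ι → ℝ) → ℝ := fun x => ∫ z, F (fun i => c * x i + s * z i) ∂(G ι) with hh
  have hhi : Integrable h (G ι) := hFp.integral_prod_left
  have hhI : ∫ x, h x ∂(G ι) = ∫ x, F x ∂(G ι) := by
    have e1 := integral_map mp.measurable.aemeasurable (f := F)
      (by rw [mp.map_eq]; exact hFm.aestronglyMeasurable)
    rw [mp.map_eq] at e1
    rw [e1, integral_prod _ hFp]
  have hFxi : ∀ x : ι → ℝ, Integrable (fun z : ι → ℝ => F (fun i => c * x i + s * z i)) (G ι) := by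
    intro x
    refine int_lin _ (by fun_prop) (|F 0| + Real.sqrt L * ∑ i, |c * x i|) (Real.sqrt L * s) fun z => ?_
    refine (Ff_abs a d L hL _).trans ?_
    rw [add_assoc, mul_assoc, ← mul_add]
    gcongr
    rw [Finset.mul_sum, ← Finset.sum_add_distrib]
    refine Finset.sum_le_sum fun i _ => (abs_add_le _ _).trans ?_
    rw [abs_mul s, abs_of_nonneg hs0]
  have hmxi : ∀ (x : ι → ℝ) (i : ι), Integrable (fun z : ι → ℝ => m (fun i => c * x i + s * z i) i) (G ι) := by
    intro x i
    exact int_bdd _ (by fun_prop) (Real.sqrt L) fun z => habs _ i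
  -- step 2
  have step2 : ∀ x : ι → ℝ, ∫⁻ z : ι → ℝ, ENNReal.ofReal (Real.exp (-(l * F (fun i => c * x i + s * z i)))) ∂(G ι) ≤
      ENNReal.ofReal (Real.exp (-(l * h x) + l ^ 2 * s ^ 2 * L)) := by
    intro x
    have hvi : Integrable (fun z : ι → ℝ => ∑ i, (l * s * m (fun i => c * x i + s * z i) i) ^ 2) (G ι) := by
      refine int_bdd _ (by fun_prop) (l ^ 2 * s ^ 2 * L) fun z => ?_
      rw [abs_of_nonneg (Finset.sum_nonneg fun i _ => sq_nonneg _)]
      simp_rw [mul_pow]
      rw [← Finset.mul_sum]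
      exact mul_le_mul_of_nonneg_left (hsq _) (by positivity)
    have ht := tau (fun z : ι → ℝ => l * F (fun i => c * x i + s * z i))
      (fun z i => l * s * m (fun i => c * x i + s * z i) i) (by fun_prop) (by fun_prop)
      ((hFxi x).const_mul l) hvi (by
        intro z w
        have := mul_le_mul_of_nonneg_left (hgr (fun i => c * x i + s * z i) (fun i => c * x i + s * w i)) hl
        refine le_trans (le_of_eq ?_) this
        rw [mul_add, Finset.mul_sum]
        congr 1
        exact Finset.sum_congr rfl fun i _ => by ring)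
    refine ht.trans (ENNReal.ofReal_le_ofReal (Real.exp_le_exp.mpr ?_))
    rw [integral_const_mul]
    gcongr
    calc ∫ z : ι → ℝ, ∑ i, (l * s * m (fun i => c * x i + s * z i) i) ^ 2 ∂(G ι)
        ≤ ∫ z : ι → ℝ, l ^ 2 * s ^ 2 * L ∂(G ι) := by
          refine integral_mono hvi (integrable_const _) fun z => ?_
          simp only
          simp_rw [mul_pow]
          rw [← Finset.mul_sum]
          exact mul_le_mul_of_nonneg_left (hsq _) (by positivity)
      _ = _ := by simp
  -- step 3
  have hhm : Measurable h := by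
    have : StronglyMeasurable (fun x : ι → ℝ => ∫ z, F (fun i => c * x i + s * z i) ∂(G ι)) :=
      StronglyMeasurable.integral_prod_right
        (f := fun (x z : ι → ℝ) => F (fun i => c * x i + s * z i))
        (Measurable.stronglyMeasurable (by fun_prop))
    exact this.measurable
  set v : (ι → ℝ) → ι → ℝ := fun x i => l * c * ∫ z, m (fun j => c * x j + s * z j) i ∂(G ι) with hv
  have hvm : Measurable v := by
    refine measurable_pi_iff.mpr fun i => ?_
    have : StronglyMeasurable (fun x : ι → ℝ => ∫ z, m (fun j => c * x j + s * z j) i ∂(G ι)) :=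
      StronglyMeasurable.integral_prod_right
        (f := fun (x z : ι → ℝ) => m (fun j => c * x j + s * z j) i)
        (Measurable.stronglyMeasurable (by fun_prop))
    exact this.measurable.const_mul _
  have hvi : Integrable (fun x => ∑ i, v x i ^ 2) (G ι) := by
    refine int_bdd _ (by fun_prop) (∑ i : ι, (l * c * Real.sqrt L) ^ 2) fun x => ?_
    have h0 : 0 ≤ ∑ i, v x i ^ 2 := Finset.sum_nonneg fun i _ => sq_nonneg _
    rw [abs_of_nonneg h0]
    refine Finset.sum_le_sum fun i _ => ?_
    have h1 := norm_integral_le_of_norm_le_const (μ := G ι) (C := Real.sqrt L)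
        (f := fun z : ι → ℝ => m (fun j => c * x j + s * z j) i)
        (Filter.Eventually.of_forall fun z => habs _ i)
    simp only [probReal_univ, mul_one, Real.norm_eq_abs] at h1
    change (l * c * ∫ z, m (fun j => c * x j + s * z j) i ∂(G ι)) ^ 2 ≤ _
    have h2 := sq_le_sq' (abs_le.mp h1).1 (abs_le.mp h1).2
    have h3 := mul_le_mul_of_nonneg_left h2 (sq_nonneg (l * c))
    calc _ = (l * c) ^ 2 * (∫ z, m (fun j => c * x j + s * z j) i ∂(G ι)) ^ 2 := by ring
      _ ≤ _ := h3
      _ = _ := by ring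
  have step3 : ∫⁻ x, ENNReal.ofReal (Real.exp (-(l * h x))) ∂(G ι) ≤
      ENNReal.ofReal (Real.exp (-(l * ∫ x, F x ∂(G ι)) + l ^ 2 * c ^ 2 * Psi m c)) := by
    have ht := tau (fun x : ι → ℝ => l * h x) v (hhm.const_mul l) hvm (hhi.const_mul l) hvi (by
        intro x y
        have e1 : ∀ x : ι → ℝ, l * h x = ∫ z : ι → ℝ, l * F (fun i => c * x i + s * z i) ∂(G ι) := fun x => by
          rw [hh, integral_const_mul]
        have e2 : ∑ i, v x i * (y i - x i) =
            ∫ z : ι → ℝ, ∑ i, l * c * m (fun j => c * x j + s * z j) i * (y i - x i) ∂(G ι) := by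
          rw [integral_finsetSum _ (fun i _ => ((hmxi x i).const_mul (l * c)).mul_const _)]
          refine Finset.sum_congr rfl fun i _ => ?_
          rw [integral_mul_const, integral_const_mul]
        have e3 : Integrable (fun z : ι → ℝ => ∑ i, l * c * m (fun j => c * x j + s * z j) i * (y i - x i)) (G ι) :=
          integrable_finsetSum _ (fun i _ => ((hmxi x i).const_mul (l * c)).mul_const _)
        rw [e1, e1, e2, ← integral_add ((hFxi x).const_mul l) e3]
        refine integral_mono (((hFxi x).const_mul l).add e3) ((hFxi y).const_mul l) fun z => ?_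
        have := mul_le_mul_of_nonneg_left (hgr (fun i => c * x i + s * z i) (fun i => c * y i + s * z i)) hl
        refine le_trans (le_of_eq ?_) this
        rw [mul_add, Finset.mul_sum]
        congr 1
        exact Finset.sum_congr rfl fun i _ => by ring)
    refine ht.trans (le_of_eq ?_)
    rw [integral_const_mul, hhI]
    congr 3
    unfold Psi
    rw [← integral_const_mul]
    refine integral_congr_ae (Filter.Eventually.of_forall fun x => ?_)
    simp only [hv]
    rw [Finset.mul_sum]
    refine Finset.sum_congr rfl fun i _ => ?_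
    rw [mul_pow, mul_pow, ← hs]
  -- conclusion
  have hE : Measurable (fun x : ι → ℝ => ENNReal.ofReal (Real.exp (-(l * F x)))) := by fun_prop
  rw [← mp.lintegral_comp hE]
  have hE2 : Measurable (fun p : (ι → ℝ) × (ι → ℝ) =>
      ENNReal.ofReal (Real.exp (-(l * F (fun i => c * p.1 i + s * p.2 i))))) := by fun_prop
  rw [lintegral_prod _ hE2.aemeasurable]
  calc ∫⁻ x : ι → ℝ, ∫⁻ z : ι → ℝ, ENNReal.ofReal (Real.exp (-(l * F (fun i => c * x i + s * z i)))) ∂(G ι) ∂(G ι)
      ≤ ∫⁻ x, ENNReal.ofReal (Real.exp (-(l * h x) + l ^ 2 * s ^ 2 * L)) ∂(G ι) :=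
        lintegral_mono step2
    _ = ENNReal.ofReal (Real.exp (l ^ 2 * s ^ 2 * L)) *
        ∫⁻ x, ENNReal.ofReal (Real.exp (-(l * h x))) ∂(G ι) := by
        rw [← lintegral_const_mul _ (by fun_prop)]
        refine lintegral_congr fun x => ?_
        rw [← ENNReal.ofReal_mul (Real.exp_pos _).le, ← Real.exp_add, add_comm]
    _ ≤ ENNReal.ofReal (Real.exp (l ^ 2 * s ^ 2 * L)) *
        ENNReal.ofReal (Real.exp (-(l * ∫ x, F x ∂(G ι)) + l ^ 2 * c ^ 2 * Psi m c)) := by
        gcongr
    _ = _ := by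
        rw [← ENNReal.ofReal_mul (Real.exp_pos _).le, ← Real.exp_add, hs2]
        congr 2
        ring

end main

end Pool.Agent.H725R3.SKL
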